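import Pool.Agent.MP_cce4c9_lc.H7.Spec

/-! Function fields: change of the variable, approximation, residues, finiteness. -/

set_option autoImplicit false

open WithZero Polynomial
open scoped IntermediateField

namespace Pool.Agent.MP_cce4c9_lc.H87

section FF

variable {k K : Type} [Field k] [Field K] [Algebra k K]

theorem transc_of_nonconst [IsAlgClosed k] {s : K} (hs : s ∉ Set.range (algebraMap k K)) :
    Transcendental k s := fun h =>
  hs (minpoly.mem_range_of_degree_eq_one k s
    (IsAlgClosed.degree_eq_one_of_irreducible k (minpoly.irreducible h.isIntegral)))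

theorem nonconst_of_transc {s : K} (hs : Transcendental k s) :
    s ∉ Set.range (algebraMap k K) := by
  rintro ⟨c, rfl⟩
  exact hs (isAlgebraic_algebraMap c)

theorem IsFF.transc [IsAlgClosed k] (_hK : IsFF k K) {s : K}
    (hs : s ∉ Set.range (algebraMap k K)) : Transcendental k s := transc_of_nonconst hs

theorem IsFF.exists_nonconst (hK : IsFF k K) : ∃ s : K, s ∉ Set.range (algebraMap k K) := by
  obtain ⟨t, ht, -⟩ := hK
  exact ⟨t, nonconst_of_transc ht⟩

theorem IsFF.of_rat [Algebra (RatFunc k) K] [IsScalarTower k (RatFunc k) K]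
    [FiniteDimensional (RatFunc k) K] : IsFF k K := by
  have : FunctionField k K := ‹_›
  refine ⟨algebraMap (RatFunc k) K RatFunc.X, ?_,
    FunctionField.FiniteDimensional.adjoin_algebraMap_X⟩
  exact (transcendental_algebraMap_iff (algebraMap (RatFunc k) K).injective).2
    RatFunc.transcendental_X

/-- The `k(X)`-algebra structure given by a transcendental element. -/
@[reducible] noncomputable def ratAlg {t : K} (ht : Transcendental k t) : Algebra (RatFunc k) K :=
  ((k⟮t⟯.val.comp (RatFunc.algEquivOfTranscendental t ht).toAlgHom).toRingHom).toAlgebra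

theorem ratAlg_tower {t : K} (ht : Transcendental k t) :
    letI := ratAlg ht; IsScalarTower k (RatFunc k) K :=
  letI := ratAlg ht
  IsScalarTower.of_algebraMap_eq fun c =>
    ((k⟮t⟯.val.comp (RatFunc.algEquivOfTranscendental t ht).toAlgHom).commutes c).symm

theorem ratAlg_fd {t : K} (ht : Transcendental k t) [FiniteDimensional k⟮t⟯ K] :
    letI := ratAlg ht; FiniteDimensional (RatFunc k) K := by
  let := ratAlg ht
  exact Module.Finite.of_equiv_equiv (RatFunc.algEquivOfTranscendental t ht).symm.toRingEquiv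
    (RingEquiv.refl K) (by
      ext x
      show (k⟮t⟯.val ((RatFunc.algEquivOfTranscendental t ht)
        ((RatFunc.algEquivOfTranscendental t ht).symm x)) : K) = _
      rw [AlgEquiv.apply_symm_apply]; rfl)

theorem IsFF.fd' (hK : IsFF k K) {s : K} (hs : Transcendental k s) : FiniteDimensional k⟮s⟯ K := by
  obtain ⟨t, ht, hfd⟩ := hK
  let := ratAlg ht
  have := ratAlg_tower ht
  have : FunctionField k K := ratAlg_fd ht
  exact FunctionField.finiteDimensional_of_adjoin_transcendental hs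

theorem IsFF.fd [IsAlgClosed k] (hK : IsFF k K) {s : K} (hs : s ∉ Set.range (algebraMap k K)) :
    FiniteDimensional k⟮s⟯ K := hK.fd' (hK.transc hs)

theorem IsFF.of_finite (hK : IsFF k K) (L : Type) [Field L] [Algebra k L] [Algebra K L]
    [IsScalarTower k K L] [FiniteDimensional K L] : IsFF k L := by
  obtain ⟨t, ht, hfd⟩ := hK
  let := ratAlg ht
  have := ratAlg_tower ht
  have := ratAlg_fd ht
  let : Algebra (RatFunc k) L := ((algebraMap K L).comp (algebraMap (RatFunc k) K)).toAlgebra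
  have : IsScalarTower (RatFunc k) K L := IsScalarTower.of_algebraMap_eq fun _ => rfl
  have : IsScalarTower k (RatFunc k) L := IsScalarTower.of_algebraMap_eq fun c => by
    rw [IsScalarTower.algebraMap_apply k K L, IsScalarTower.algebraMap_apply k (RatFunc k) K]; rfl
  have : FiniteDimensional (RatFunc k) L := Module.Finite.trans K L
  exact IsFF.of_rat

theorem isFF_adjoin {s : K} (hs : Transcendental k s) : IsFF k k⟮s⟯ := by
  let : Algebra (RatFunc k) k⟮s⟯ :=
    (RatFunc.algEquivOfTranscendental s hs).toAlgHom.toRingHom.toAlgebra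
  have : IsScalarTower k (RatFunc k) k⟮s⟯ := IsScalarTower.of_algebraMap_eq fun c =>
    ((RatFunc.algEquivOfTranscendental s hs).commutes c).symm
  have : FiniteDimensional (RatFunc k) k⟮s⟯ :=
    Module.Finite.of_surjective (Algebra.linearMap (RatFunc k) k⟮s⟯)
      (RatFunc.algEquivOfTranscendental s hs).surjective
  exact IsFF.of_rat

theorem IsFF.adjoin [IsAlgClosed k] (hK : IsFF k K) {s : K}
    (hs : s ∉ Set.range (algebraMap k K)) : IsFF k k⟮s⟯ := isFF_adjoin (hK.transc hs)

namespace Place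

theorem unif_ne (v : Place k K) {π : K} (hπ : v.val π = exp (-1 : ℤ)) : π ≠ 0 := by
  rintro rfl
  rw [map_zero] at hπ
  exact exp_ne_zero hπ.symm

theorem exists_ord (v : Place k K) (n : ℤ) : ∃ y : K, y ≠ 0 ∧ v.val y = exp (-n) ∧ v.ord y = n := by
  obtain ⟨y, hy⟩ := v.surj (exp (-n))
  refine ⟨y, ?_, hy, v.ord_eq hy⟩
  rintro rfl
  rw [map_zero] at hy
  exact exp_ne_zero hy.symm

theorem ord_mul' (v : Place k K) {a b : K} (ha : a ≠ 0) (hb : b ≠ 0) :
    v.ord (a * b) = v.ord a + v.ord b := v.ord_mul (v.val_ne ha) (v.val_ne hb)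

theorem ord_div (v : Place k K) {a b : K} (ha : a ≠ 0) (hb : b ≠ 0) :
    v.ord (a / b) = v.ord a - v.ord b := by
  rw [div_eq_mul_inv, v.ord_mul' ha (inv_ne_zero hb), v.ord_inv, sub_eq_add_neg]

theorem ord_prod (v : Place k K) {ι : Type} (s : Finset ι) (f : ι → K) (hf : ∀ i ∈ s, f i ≠ 0) :
    v.ord (∏ i ∈ s, f i) = ∑ i ∈ s, v.ord (f i) := by
  classical
  induction s using Finset.induction_on with
  | empty => simp
  | insert a s ha ih =>
    rw [Finset.prod_insert ha, Finset.sum_insert ha,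
      v.ord_mul' (hf a (Finset.mem_insert_self _ _))
        (Finset.prod_ne_zero_iff.2 fun i hi => hf i (Finset.mem_insert_of_mem hi)),
      ih fun i hi => hf i (Finset.mem_insert_of_mem hi)]

/-- The real absolute value attached to a place. -/
noncomputable def abv (v : Place k K) : AbsoluteValue K ℝ where
  toFun x := (WithZeroMulInt.toNNReal (e := 2) two_ne_zero (v.val x) : ℝ)
  map_mul' x y := by simp
  nonneg' x := NNReal.coe_nonneg _
  eq_zero' x := by simp
  add_le' x y := by
    have hm : StrictMono (WithZeroMulInt.toNNReal (e := 2) two_ne_zero) :=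
      WithZeroMulInt.toNNReal_strictMono (e := 2) one_lt_two
    rcases v.val.map_add' x y with h | h
    · have := NNReal.coe_le_coe.mpr (hm.monotone h)
      have h2 := NNReal.coe_nonneg (WithZeroMulInt.toNNReal (e := 2) two_ne_zero (v.val y))
      linarith
    · have := NNReal.coe_le_coe.mpr (hm.monotone h)
      have h2 := NNReal.coe_nonneg (WithZeroMulInt.toNNReal (e := 2) two_ne_zero (v.val x))
      linarith

theorem abv_le_iff (v : Place k K) (x y : K) : v.abv x ≤ v.abv y ↔ v.val x ≤ v.val y := by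
  have hm : StrictMono (WithZeroMulInt.toNNReal (e := 2) two_ne_zero) :=
    WithZeroMulInt.toNNReal_strictMono (e := 2) one_lt_two
  exact NNReal.coe_le_coe.trans hm.le_iff_le

theorem abv_lt_one_iff (v : Place k K) (x : K) : v.abv x < 1 ↔ v.val x < 1 := by
  rw [← not_le, ← not_le, ← v.abv.map_one, abv_le_iff, map_one]

theorem one_lt_abv_iff (v : Place k K) (x : K) : 1 < v.abv x ↔ 1 < v.val x := by
  rw [← not_le, ← not_le, ← v.abv.map_one, abv_le_iff, map_one]

theorem exists_big (v₀ : Place k K) (S : Finset (Place k K)) (h : v₀ ∉ S) :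
    ∃ a : K, 1 < v₀.val a ∧ ∀ v ∈ S, v.val a < 1 := by
  classical
  let ι := {v : Place k K // v ∈ insert v₀ S}
  have hnt : ∀ i : ι, (i.1.abv).IsNontrivial := by
    intro i
    obtain ⟨π, hπ⟩ := i.1.exists_unif
    have hlt : i.1.val π < 1 := by rw [hπ, ← exp_zero, exp_lt_exp]; omega
    exact ⟨π, i.1.unif_ne hπ, ((i.1.abv_lt_one_iff π).mpr hlt).ne⟩
  have hpw : Pairwise fun i j : ι => ¬(i.1.abv).IsEquiv (j.1.abv) := by
    intro i j hij he
    apply hij
    apply Subtype.ext
    apply Place.eq_of_le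
    intro x hx
    rw [← map_one i.1.val, ← abv_le_iff] at hx
    rw [← map_one j.1.val, ← abv_le_iff]
    exact (he x 1).1 hx
  obtain ⟨a, ha, hb⟩ := AbsoluteValue.exists_one_lt_lt_one_pi_of_not_isEquiv hnt hpw
    ⟨v₀, Finset.mem_insert_self _ _⟩
  refine ⟨a, (v₀.one_lt_abv_iff a).mp ha, fun v hv => ?_⟩
  refine (v.abv_lt_one_iff a).mp (hb ⟨v, Finset.mem_insert_of_mem hv⟩ ?_)
  intro he
  have : v = v₀ := congrArg Subtype.val he
  exact h (this ▸ hv)

theorem pow_small (v : Place k K) {a : K} (ha : v.val a < 1) (m : ℤ) :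
    ∀ᶠ N : ℕ in Filter.atTop, v.val (a ^ N) ≤ exp (-m) := by
  by_cases h0 : a = 0
  · filter_upwards [Filter.eventually_ge_atTop 1] with N hN
    rw [h0, zero_pow (by omega), map_zero]; exact zero_le
  have h1 := (v.val_lt_one (v.val_ne h0)).1 ha
  filter_upwards [Filter.eventually_ge_atTop m.toNat] with N hN
  rw [v.val_le_exp (v.val_ne (pow_ne_zero _ h0)), v.ord_pow, neg_neg]
  have h4 : m ≤ N := by omega
  have h5 : (0 : ℤ) ≤ N := Int.natCast_nonneg N
  nlinarith

theorem exists_idem (v₀ : Place k K) (S : Finset (Place k K)) (h : v₀ ∉ S) (m : Place k K → ℤ) :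
    ∃ z : K, v₀.val (z - 1) ≤ exp (-m v₀) ∧ ∀ v ∈ S, v.val z ≤ exp (-m v) := by
  obtain ⟨a, ha, hb⟩ := v₀.exists_big S h
  have ha0 : a ≠ 0 := by rintro rfl; simp at ha
  have hi : v₀.val a⁻¹ < 1 := by rw [map_inv₀]; exact inv_lt_one_of_one_lt₀ ha
  obtain ⟨N, ⟨hN, hN1⟩, hN2⟩ := ((((Finset.eventually_all S).mpr
    fun v hv => v.pow_small (hb v hv) (m v)).and (v₀.pow_small hi (m v₀))).and
    (Filter.eventually_ge_atTop 1)).exists
  have hb1 : 1 < v₀.val (a ^ N) := by
    rw [map_pow]; exact one_lt_pow₀ ha (by omega)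
  have e1 : v₀.val (1 + a ^ N) = v₀.val (a ^ N) :=
    v₀.val.map_add_eq_of_lt_right (by simpa using hb1)
  have h0 : 1 + a ^ N ≠ 0 := fun e => by
    rw [e, map_zero] at e1; exact (zero_lt_one.trans hb1).ne e1
  refine ⟨a ^ N / (1 + a ^ N), ?_, fun v hv => ?_⟩
  · rw [show a ^ N / (1 + a ^ N) - 1 = -(1 + a ^ N)⁻¹ by field_simp; ring, Valuation.map_neg,
      map_inv₀, e1, ← map_inv₀, ← inv_pow]
    exact hN1
  · have h3 : v.val (a ^ N) < 1 := by
      rw [map_pow]; exact pow_lt_one₀ zero_le (hb v hv) (by omega)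
    rw [map_div₀, v.val.map_one_add_of_lt h3, div_one]
    exact hN v hv

theorem exists_sep (v₀ : Place k K) (S : Finset (Place k K)) (h : v₀ ∉ S) :
    ∃ z : K, v₀.val z = 1 ∧ ∀ v ∈ S, v.val z < 1 := by
  obtain ⟨z, h1, h2⟩ := v₀.exists_idem S h fun _ => 1
  have hlt : (exp (-1 : ℤ) : ℤᵐ⁰) < 1 := by rw [← exp_zero, exp_lt_exp]; omega
  refine ⟨z, ?_, fun v hv => (h2 v hv).trans_lt hlt⟩
  have := v₀.val.map_one_add_of_lt (h1.trans_lt hlt)
  rwa [add_sub_cancel] at this

theorem exists_bound (v : Place k K) (h : K) : ∃ m : ℤ, v.val h ≤ exp m := by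
  by_cases h0 : h = 0
  · exact ⟨0, by simp [h0]⟩
  · exact ⟨-v.ord h, (v.val_eq (v.val_ne h0)).le⟩

theorem eval_le (v : Place k K) {p : K[X]} (hp : ∀ i, v.val (p.coeff i) ≤ 1) {x : K}
    (hx : v.val x ≤ 1) : v.val (p.eval x) ≤ 1 := by
  rw [eval_eq_sum_range]
  refine v.val.map_sum_le fun i _ => ?_
  rw [map_mul, map_pow]
  exact mul_le_one' (hp i) (pow_le_one' hx i)

theorem aeval_le (v : Place k K) (p : k[X]) {x : K} (hx : v.val x ≤ 1) :
    v.val (aeval x p) ≤ 1 := by
  rw [← eval_map_algebraMap]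
  exact v.eval_le (fun i => by rw [coeff_map]; exact v.const_le _) hx

theorem aeval_sub_lt (v : Place k K) (p : k[X]) {x : K} {a : k}
    (h : v.val (x - algebraMap k K a) < 1) :
    v.val (aeval x p - algebraMap k K (p.eval a)) < 1 := by
  obtain ⟨q, hq⟩ := X_sub_C_dvd_sub_C_eval (p := p) (a := a)
  have h1 := congrArg (aeval x) hq
  simp only [map_sub, aeval_C, map_mul, aeval_X] at h1
  rw [h1, map_mul]
  exact mul_lt_one_of_lt_of_le h (v.aeval_le q (v.le_of_sub_lt h))

theorem eq_one_of_sub (v : Place k K) {x : K} {a : k} (h : v.val (x - algebraMap k K a) < 1)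
    (ha : a ≠ 0) : v.val x = 1 := by
  have : x = algebraMap k K a + (x - algebraMap k K a) := by ring
  rw [this, v.val.map_add_eq_of_lt_left (by rwa [v.triv a ha]), v.triv a ha]

/-- At a zero of `s`, a polynomial in `s` has value a power of that of `s`. -/
theorem val_aeval (s : K) {p : k[X]} (hp : p ≠ 0) :
    ∃ m : ℕ, ∀ v : Place k K, v.val s < 1 → v.val (aeval s p) = v.val s ^ m := by
  obtain ⟨q, hq, hq2⟩ := exists_eq_pow_rootMultiplicity_mul_and_not_dvd p hp 0
  refine ⟨p.rootMultiplicity 0, fun v hv => ?_⟩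
  have h1 : v.val (aeval s q) = 1 :=
    v.eq_one_of_sub (v.aeval_sub_lt q (a := 0) (by simpa using hv))
      fun h => hq2 (dvd_iff_isRoot.mpr h)
  conv_lhs => rw [hq]
  simp [h1]

theorem val_adjoin {s : K} (hs : s ≠ 0) {c : K} (hc : c ∈ k⟮s⟯) (hc0 : c ≠ 0) :
    ∃ m : ℤ, ∀ v : Place k K, v.val s < 1 → v.val c = v.val s ^ m := by
  obtain ⟨p, q, rfl⟩ := (IntermediateField.mem_adjoin_simple_iff k c).1 hc
  have hp : p ≠ 0 := by rintro rfl; simp at hc0
  have hq : q ≠ 0 := by rintro rfl; simp at hc0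
  obtain ⟨m, hm⟩ := val_aeval s hp
  obtain ⟨n, hn⟩ := val_aeval s hq
  refine ⟨m - n, fun v hv => ?_⟩
  rw [map_div₀, hm v hv, hn v hv, zpow_sub₀ (v.val_ne hs), zpow_natCast, zpow_natCast]

theorem exists_root [IsAlgClosed k] (v : Place k K) {p : k[X]} (hp : p ≠ 0) {x : K}
    (hx : v.val x ≤ 1) (h : v.val (aeval x p) ≠ 1) :
    ∃ a ∈ p.roots, v.val (x - algebraMap k K a) < 1 := by
  by_contra hc
  push Not at hc
  apply h
  have hs := (IsAlgClosed.splits p).eq_prod_roots
  rw [hs, map_mul, aeval_C, map_mul, v.triv _ (leadingCoeff_ne_zero.mpr hp), one_mul,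
    map_multiset_prod, map_multiset_prod]
  apply Multiset.prod_eq_one
  intro y hy
  simp only [Multiset.map_map, Multiset.mem_map, Function.comp] at hy
  obtain ⟨a, ha, rfl⟩ := hy
  simp only [map_sub, aeval_X, aeval_C]
  exact le_antisymm (v.val.map_sub_le hx (v.const_le a)) (hc a ha)

theorem le_one_of_monic (v : Place k K) {p : K[X]} (hm : p.Monic)
    (hp : ∀ i, v.val (p.coeff i) ≤ 1) {x : K} (hx : p.eval x = 0) : v.val x ≤ 1 := by
  have hl : p ∈ lifts (algebraMap v.val.integer K) := by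
    rw [lifts_iff_coeff_lifts]
    exact fun i => ⟨⟨p.coeff i, hp i⟩, rfl⟩
  obtain ⟨q, hq, -, hqm⟩ := lifts_and_natDegree_eq_and_monic hl hm
  refine (Valuation.integer.integers v.val).mem_of_integral ⟨q, hqm, ?_⟩
  rw [← eval_map, hq, hx]

/-- A place is nontrivial on every subfield over which the field is algebraic. -/
theorem exists_lt {E : Type} [Field E] [Algebra E K] [Algebra.IsAlgebraic E K] (v : Place k K) :
    ∃ c : E, c ≠ 0 ∧ v.val (algebraMap E K c) < 1 := by
  by_contra hc
  push Not at hc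
  have h1 : ∀ c : E, v.val (algebraMap E K c) ≤ 1 := fun c => by
    by_cases h0 : c = 0
    · simp [h0]
    · have := hc c⁻¹ (inv_ne_zero h0)
      rwa [map_inv₀, map_inv₀, one_le_inv₀ (zero_lt_iff.2 (v.val_ne (by simpa using h0)))] at this
  obtain ⟨y, -, hy, -⟩ := v.exists_ord (-1)
  have hint : IsIntegral E y := Algebra.IsIntegral.isIntegral y
  have := v.le_one_of_monic ((minpoly.monic hint).map (algebraMap E K))
    (fun i => by rw [coeff_map]; exact h1 _) (x := y)
    (by rw [eval_map_algebraMap, minpoly.aeval])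
  rw [hy, ← exp_zero, exp_le_exp] at this
  omega

theorem finite_zeros {s : K} (hs : s ≠ 0) [FiniteDimensional k⟮s⟯ K] :
    {v : Place k K | v.val s < 1}.Finite := by
  classical
  by_contra hinf
  obtain ⟨S, hS, hcard⟩ := Set.Infinite.exists_subset_card_eq hinf (Module.finrank k⟮s⟯ K + 1)
  have hz : ∀ i : S, ∃ z : K, i.1.val z = 1 ∧ ∀ v ∈ S.erase i.1, v.val z < 1 :=
    fun i => i.1.exists_sep _ (Finset.notMem_erase _ _)
  choose z hz1 hz2 using hz
  have hP' : ∀ c : k⟮s⟯, c ≠ 0 → ∃ m : ℤ, ∀ v : Place k K, v.val s < 1 →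
      v.val (algebraMap k⟮s⟯ K c) = v.val s ^ m :=
    fun c hc => val_adjoin hs c.2 (by simpa using hc)
  have hli : LinearIndependent k⟮s⟯ z := by
    rw [Fintype.linearIndependent_iff]
    intro g hg
    by_contra hne
    push Not at hne
    choose! m hm using hP'
    obtain ⟨i, hi, hmin⟩ := Finset.exists_min_image (Finset.univ.filter fun i => g i ≠ 0)
      (fun i => m (g i)) (by obtain ⟨i, hi⟩ := hne; exact ⟨i, by simpa using hi⟩)
    have hi0 : g i ≠ 0 := by simpa using hi
    have hPi : i.1.val s < 1 := hS i.2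
    have hpos : 0 < i.1.val s := zero_lt_iff.2 (i.1.val_ne hs)
    have h1 : i.1.val (g i • z i) = i.1.val s ^ m (g i) := by
      rw [Algebra.smul_def, map_mul, hz1, mul_one, hm _ hi0 _ hPi]
    have h2 : i.1.val (∑ j ∈ Finset.univ.erase i, g j • z j) < i.1.val s ^ m (g i) := by
      refine i.1.val.map_sum_lt (zpow_pos hpos _).ne' fun j hj => ?_
      by_cases hj0 : g j = 0
      · simp [hj0, zpow_pos hpos]
      · have hji : j ≠ i := Finset.ne_of_mem_erase hj
        rw [Algebra.smul_def, map_mul, hm _ hj0 _ hPi]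
        have h3 : i.1.val (z j) < 1 := hz2 j i.1 (Finset.mem_erase.mpr
          ⟨fun h => hji (Subtype.ext h.symm), i.2⟩)
        calc i.1.val s ^ m (g j) * i.1.val (z j) < i.1.val s ^ m (g j) * 1 :=
              mul_lt_mul_of_pos_left h3 (zpow_pos hpos _)
          _ ≤ i.1.val s ^ m (g i) := by
              rw [mul_one]
              exact zpow_le_zpow_right_of_le_one₀ hpos hPi.le (hmin j (by simpa using hj0))
    rw [← Finset.add_sum_erase _ _ (Finset.mem_univ i), add_eq_zero_iff_eq_neg] at hg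
    rw [← h1, hg, Valuation.map_neg] at h2
    exact lt_irrefl _ h2
  have := hli.fintype_card_le_finrank
  simp [hcard] at this

end Place

end FF

end Pool.Agent.MP_cce4c9_lc.H87

namespace Pool.Agent.MP_cce4c9_lc.H7

open Pool.Agent.MP_cce4c9_lc.H87

variable {k K : Type} [Field k] [Field K] [Algebra k K]

/-- Weak approximation. -/
theorem apx (S : Finset (Place k K)) (h : Place k K → K) (n : Place k K → ℤ) :
    ∃ y : K, ∀ v ∈ S, v.val (y - h v) ≤ exp (-n v) := by
  classical
  choose b hb using fun (v w : Place k K) => v.exists_bound (h w)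
  choose z hz1 hz2 using fun w : Place k K =>
    w.exists_idem (S.erase w) (Finset.notMem_erase _ _) fun v => n v + b v w
  refine ⟨∑ w ∈ S, z w * h w, fun v hv => ?_⟩
  have key : ∀ (w : Place k K) (x : K), v.val x ≤ exp (-(n v + b v w)) →
      v.val (x * h w) ≤ exp (-n v) := fun w x hx => by
    rw [map_mul]
    refine (mul_le_mul' hx (hb v w)).trans (le_of_eq ?_)
    rw [← exp_add]; congr 1; ring
  rw [← Finset.add_sum_erase _ _ hv, show z v * h v + ∑ w ∈ S.erase v, z w * h w - h v =
    (z v - 1) * h v + ∑ w ∈ S.erase v, z w * h w by ring]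
  refine v.val.map_add_le (key v _ (hz1 v)) (v.val.map_sum_le fun w hw => key w _ ?_)
  exact hz2 w v (Finset.mem_erase.2 ⟨(Finset.ne_of_mem_erase hw).symm, hv⟩)

theorem apx_ord (S : Finset (Place k K)) (n : Place k K → ℤ) :
    ∃ y : K, y ≠ 0 ∧ ∀ v ∈ S, v.ord y = n v := by
  choose h h0 h1 h2 using fun v : Place k K => v.exists_ord (n v)
  obtain ⟨y, hy⟩ := apx S h fun v => n v + 1
  have key : ∀ v ∈ S, v.val y = exp (-n v) := fun v hv => by
    have : v.val (y - h v) < v.val (h v) :=
      (hy v hv).trans_lt (by rw [h1, exp_lt_exp]; omega)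
    rw [← h1, ← v.val.map_add_eq_of_lt_left this, add_sub_cancel]
  rcases S.eq_empty_or_nonempty with rfl | ⟨v, hv⟩
  · exact ⟨1, one_ne_zero, by simp⟩
  · refine ⟨y, fun e => ?_, fun v hv => v.ord_eq (key v hv)⟩
    have := key v hv
    rw [e, map_zero] at this
    exact exp_ne_zero this.symm

variable [IsAlgClosed k]

/-- The residue field of a place is the field of constants. -/
theorem res (hK : IsFF k K) (v : Place k K) : v.Res := by
  intro x hx
  by_cases hc : x ∈ Set.range (algebraMap k K)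
  · obtain ⟨c, rfl⟩ := hc
    exact ⟨c, by simp⟩
  have := hK.fd hc
  by_contra hno
  have h1 : ∀ p : k[X], p ≠ 0 → v.val (aeval x p) = 1 := fun p hp => by
    by_contra h2
    obtain ⟨a, -, ha⟩ := v.exists_root hp hx h2
    exact hno ⟨a, ha⟩
  obtain ⟨c, hc0, hc1⟩ := v.exists_lt (E := k⟮x⟯)
  obtain ⟨p, q, hpq⟩ := (IntermediateField.mem_adjoin_simple_iff k (c : K)).1 c.2
  have hc2 : (c : K) ≠ 0 := by simpa using hc0
  have hp : p ≠ 0 := by rintro rfl; simp [hpq] at hc2
  have hq : q ≠ 0 := by rintro rfl; simp [hpq] at hc2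
  rw [show algebraMap k⟮x⟯ K c = (c : K) from rfl, hpq, map_div₀, h1 p hp, h1 q hq,
    div_one] at hc1
  exact lt_irrefl _ hc1

/-- A function has finitely many zeros and poles. -/
theorem fins (hK : IsFF k K) (h : K) : (Function.support fun v : Place k K => v.ord h).Finite := by
  by_cases hc : h ∈ Set.range (algebraMap k K)
  · obtain ⟨c, rfl⟩ := hc
    simp
  have h0 : h ≠ 0 := fun e => hc ⟨0, by simp [e]⟩
  have hc' : h⁻¹ ∉ Set.range (algebraMap k K) := by
    rintro ⟨c, hc1⟩
    exact hc ⟨c⁻¹, by rw [map_inv₀, hc1, inv_inv]⟩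
  have := hK.fd hc
  have := hK.fd hc'
  refine ((Place.finite_zeros (k := k) h0).union
    (Place.finite_zeros (k := k) (inv_ne_zero h0))).subset fun v hv => ?_
  rw [Function.mem_support] at hv
  simp only [Set.mem_union, Set.mem_ofPred_eq, v.val_lt_one (v.val_ne h0),
    v.val_lt_one (v.val_ne (inv_ne_zero h0)), v.ord_inv]
  omega

end Pool.Agent.MP_cce4c9_lc.H7
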