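import Pool.Agent.MP_cce4c9_lc.H7.BaseA

/-! Divisors of functions, values on divisors, places in extensions, representatives. -/

set_option autoImplicit false

open WithZero Finsupp
open scoped IntermediateField

namespace Pool.Agent.MP_cce4c9_lc.H87

section Off

variable {k K : Type} [Field k] [Field K] [Algebra k K] {f g : K} {D E : Dv k K}

theorem Off.of_supp (h : Off f D) (hE : ∀ v, E v ≠ 0 → D v ≠ 0) : Off f E :=
  fun v hv => h v (hE v hv)

theorem Off.zero (f : K) : Off f (0 : Dv k K) := fun _ hv => absurd rfl hv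

theorem Off.add (h : Off f D) (h' : Off f E) : Off f (D + E) := fun v hv => by
  by_cases h0 : D v = 0
  · exact h' v fun e => hv (by simp [h0, e])
  · exact h v h0

theorem Off.neg (h : Off f D) : Off f (-D) := fun v hv => h v (by simpa using hv)

theorem Off.sub (h : Off f D) (h' : Off f E) : Off f (D - E) := by
  rw [sub_eq_add_neg]; exact h.add h'.neg

theorem Off.smul (h : Off f D) (n : ℤ) : Off f (n • D) :=
  fun v hv => h v fun e => hv (by simp [e])

theorem Off.of_smul {n : ℤ} (h : Off f (n • D)) (hn : n ≠ 0) : Off f D :=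
  fun v hv => h v (by simpa using ⟨hn, hv⟩)

theorem Off.single {v : Place k K} (h : v.val f = 1) (n : ℤ) : Off f (single v n) := fun w hw => by
  by_cases e : v = w
  · exact e ▸ h
  · exact absurd (single_eq_of_ne' e) hw

theorem Off.sum {ι : Type} (s : Finset ι) (D : ι → Dv k K) (h : ∀ i ∈ s, Off f (D i)) :
    Off f (∑ i ∈ s, D i) :=
  Finset.sum_induction D (Off f) (fun _ _ => Off.add) (Off.zero f) h

theorem Off.mul (h : Off f D) (h' : Off g D) : Off (f * g) D := fun v hv => by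
  rw [map_mul, h v hv, h' v hv, one_mul]

theorem Off.inv (h : Off f D) : Off f⁻¹ D := fun v hv => by rw [map_inv₀, h v hv, inv_one]

theorem Off.div (h : Off f D) (h' : Off g D) : Off (f / g) D := fun v hv => by
  rw [map_div₀, h v hv, h' v hv, div_one]

theorem Off.pow (h : Off f D) (n : ℕ) : Off (f ^ n) D := fun v hv => by
  rw [map_pow, h v hv, one_pow]

theorem Off.zpow (h : Off f D) (n : ℤ) : Off (f ^ n) D := fun v hv => by
  rw [map_zpow₀, h v hv, one_zpow]

theorem Off.const {c : k} (hc : c ≠ 0) (D : Dv k K) : Off (algebraMap k K c) D :=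
  fun v _ => v.triv c hc

theorem Off.one (D : Dv k K) : Off (1 : K) D := fun v _ => map_one v.val

theorem Off.prod {ι : Type} (s : Finset ι) (f : ι → K) (h : ∀ i ∈ s, Off (f i) D) :
    Off (∏ i ∈ s, f i) D :=
  Finset.prod_induction f (fun x => Off x D) (fun _ _ => Off.mul) (Off.one D) h

end Off

section Over

variable {k K L : Type} [Field k] [Field K] [Algebra k K] [Field L] [Algebra k L] [Algebra K L]
  {y : Place k L} {x x' : Place k K} {e e' : ℕ}

theorem Over.ord (H : Over y x e) (h : K) : y.ord (algebraMap K L h) = e * x.ord h := by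
  simp only [Place.ord, H.2 h, log_pow]; simp

theorem Over.le_iff (H : Over y x e) (h : K) : y.val (algebraMap K L h) ≤ 1 ↔ x.val h ≤ 1 := by
  rw [H.2 h, pow_le_one_iff H.1.ne']

theorem Over.lt_iff (H : Over y x e) (h : K) : y.val (algebraMap K L h) < 1 ↔ x.val h < 1 := by
  rw [H.2 h, pow_lt_one_iff H.1.ne']

theorem Over.eq_one_iff (H : Over y x e) (h : K) :
    y.val (algebraMap K L h) = 1 ↔ x.val h = 1 := by
  rw [le_antisymm_iff, le_antisymm_iff, H.le_iff, ← not_lt (b := 1), ← not_lt (b := 1), H.lt_iff]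

theorem Over.unique (H : Over y x e) (H' : Over y x' e') : x = x' ∧ e = e' := by
  have h1 : x = x' := x.eq_of_le x' fun h hh => (H'.le_iff h).1 ((H.le_iff h).2 hh)
  subst h1
  obtain ⟨π, hπ⟩ := x.exists_unif
  have h2 := (H.ord π).symm.trans (H'.ord π)
  rw [x.ord_eq hπ, mul_one, mul_one] at h2
  exact ⟨rfl, by exact_mod_cast h2⟩

theorem Over.ev [IsScalarTower k K L] (H : Over y x e) (h : K) :
    y.ev (algebraMap K L h) = x.ev h := by
  have key : ∀ c : k, y.val (algebraMap K L h - algebraMap k L c) < 1 ↔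
      x.val (h - algebraMap k K c) < 1 := fun c => by
    rw [IsScalarTower.algebraMap_apply k K L, ← map_sub, H.lt_iff]
  by_cases hc : ∃ c : k, x.val (h - algebraMap k K c) < 1
  · obtain ⟨c, hc⟩ := hc
    rw [x.ev_eq hc, y.ev_eq ((key c).2 hc)]
  · rw [Place.ev, Place.ev, dif_neg hc, dif_neg (by simpa only [key] using hc)]

theorem Over.trans {M : Type} [Field M] [Algebra k M] [Algebra L M] [Algebra K M]
    [IsScalarTower K L M] {z : Place k M} (H : Over z y e') (H' : Over y x e) :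
    Over z x (e * e') :=
  ⟨Nat.mul_pos H'.1 H.1, fun h => by
    rw [IsScalarTower.algebraMap_apply K L M, H.2, H'.2, pow_mul]⟩

end Over

end Pool.Agent.MP_cce4c9_lc.H87

namespace Pool.Agent.MP_cce4c9_lc.H7

open Pool.Agent.MP_cce4c9_lc.H87

section Gal

variable {k K L : Type} [Field k] [Field K] [Algebra k K] [Field L] [Algebra k L] [Algebra K L]
  [IsScalarTower k K L]

@[simp] theorem ofAlg_apply (τ : L ≃ₐ[K] L) (h : L) : (SA.ofAlg (k := k) τ).1 h = τ h := rfl

theorem ofAlg_mul (τ τ' : L ≃ₐ[K] L) :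
    SA.ofAlg (k := k) (τ * τ') = SA.ofAlg (k := k) τ * SA.ofAlg (k := k) τ' := rfl

theorem ofAlg_one : SA.ofAlg (k := k) (1 : L ≃ₐ[K] L) = 1 := rfl

theorem ofAlg_inv (τ : L ≃ₐ[K] L) : SA.ofAlg (k := k) τ⁻¹ = (SA.ofAlg (k := k) τ)⁻¹ := rfl

theorem ofAlg_val (τ : L ≃ₐ[K] L) (y : Place k L) (h : L) :
    (SA.ofAlg (k := k) τ • y).val (τ h) = y.val h := smul_val_apply (SA.ofAlg τ) y h

theorem ofAlg_ord (τ : L ≃ₐ[K] L) (y : Place k L) (h : L) :
    (SA.ofAlg (k := k) τ • y).ord (τ h) = y.ord h := smul_ord_apply (SA.ofAlg τ) y h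

theorem ofAlg_const (τ : L ≃ₐ[K] L) (c : k) : τ (algebraMap k L c) = algebraMap k L c := by
  rw [IsScalarTower.algebraMap_apply k K L, τ.commutes]

theorem ofAlg_ev (τ : L ≃ₐ[K] L) (y : Place k L) (h : L) :
    (SA.ofAlg (k := k) τ • y).ev (τ h) = y.ev h := by
  have key : ∀ c : k, (SA.ofAlg (k := k) τ • y).val (τ h - algebraMap k L c) =
      y.val (h - algebraMap k L c) := fun c => by
    rw [← ofAlg_val τ y (h - _), map_sub τ, ofAlg_const]
  by_cases hc : ∃ c : k, y.val (h - algebraMap k L c) < 1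
  · obtain ⟨c, hc⟩ := hc
    rw [y.ev_eq hc, Place.ev_eq _ ((key c).symm ▸ hc)]
  · rw [Place.ev, Place.ev, dif_neg hc, dif_neg (by simpa only [key] using hc)]

theorem ofAlg_over (τ : L ≃ₐ[K] L) {y : Place k L} {x : Place k K} {e : ℕ} (H : Over y x e) :
    Over (SA.ofAlg (k := k) τ • y) x e :=
  ⟨H.1, fun h => by rw [← H.2, ← ofAlg_val τ y, τ.commutes]⟩

end Gal

section Zeta

variable {k : Type} [Field k] {ζ : k} {l : ℕ}

theorem zeta_nat [NeZero l] (h : ζ ^ l = 1) (n : ℕ) : ζ ^ (n : ZMod l).val = ζ ^ n := by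
  rw [ZMod.val_natCast, ← pow_eq_pow_mod n h]

theorem zeta_zero : ζ ^ (0 : ZMod l).val = 1 := by rw [ZMod.val_zero, pow_zero]

theorem zeta_add [NeZero l] (h : ζ ^ l = 1) (a b : ZMod l) :
    ζ ^ (a + b).val = ζ ^ a.val * ζ ^ b.val := by
  rw [ZMod.val_add, ← pow_eq_pow_mod _ h, pow_add]

theorem zeta_neg [NeZero l] (h : ζ ^ l = 1) (a : ZMod l) : ζ ^ (-a).val = (ζ ^ a.val)⁻¹ := by
  apply eq_inv_of_mul_eq_one_left
  rw [← zeta_add h, neg_add_cancel, zeta_zero]

theorem zeta_sub [NeZero l] (h : ζ ^ l = 1) (a b : ZMod l) :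
    ζ ^ (a - b).val = ζ ^ a.val / ζ ^ b.val := by
  rw [sub_eq_add_neg, zeta_add h, zeta_neg h, div_eq_mul_inv]

theorem zeta_mul [NeZero l] (h : ζ ^ l = 1) (a b : ZMod l) :
    ζ ^ (a * b).val = (ζ ^ a.val) ^ b.val := by
  rw [ZMod.val_mul, ← pow_eq_pow_mod _ h, pow_mul]

theorem zeta_ne [NeZero l] (h : ζ ^ l = 1) (n : ℕ) : ζ ^ n ≠ 0 :=
  pow_ne_zero _ fun e => by
    rw [e, zero_pow (NeZero.ne l)] at h
    exact zero_ne_one h

theorem zeta_pow [NeZero l] (h : ζ ^ l = 1) (n : ℕ) : (ζ ^ n) ^ l = 1 := by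
  rw [← pow_mul, mul_comm, pow_mul, h, one_pow]

theorem zeta_int [NeZero l] (h : ζ ^ l = 1) (n : ℤ) : ζ ^ (n : ZMod l).val = ζ ^ n := by
  obtain ⟨m, rfl | rfl⟩ := n.eq_nat_or_neg
  · rw [Int.cast_natCast, zeta_nat h, zpow_natCast]
  · rw [Int.cast_neg, Int.cast_natCast, zeta_neg h, zeta_nat h, zpow_neg, zpow_natCast]

theorem zeta_sum [NeZero l] (h : ζ ^ l = 1) {ι : Type} (s : Finset ι) (a : ι → ZMod l) :
    ζ ^ (∑ i ∈ s, a i).val = ∏ i ∈ s, ζ ^ (a i).val := by
  classical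
  induction s using Finset.induction_on with
  | empty => simp
  | insert i s hi ih => rw [Finset.sum_insert hi, Finset.prod_insert hi, zeta_add h, ih]

theorem zeta_inj [NeZero l] (h : IsPrimitiveRoot ζ l) {a b : ZMod l}
    (e : ζ ^ a.val = ζ ^ b.val) : a = b :=
  ZMod.val_injective l (h.pow_inj (ZMod.val_lt a) (ZMod.val_lt b) e)

theorem zeta_surj [NeZero l] (h : IsPrimitiveRoot ζ l) {x : k} (hx : x ^ l = 1) :
    ∃ a : ZMod l, x = ζ ^ a.val := by
  obtain ⟨i, -, hi⟩ := h.eq_pow_of_pow_eq_one hx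
  exact ⟨i, by rw [zeta_nat h.pow_eq_one, hi]⟩

end Zeta

variable {k K : Type} [Field k] [Field K] [Algebra k K]

theorem dv_zero : dv k (0 : K) = 0 := by
  ext v; rw [dv_apply (by simp)]; simp

theorem dv_const (c : k) : dv k (algebraMap k K c) = 0 := by
  ext v; rw [dv_apply (by simp)]; simp

theorem dv_one : dv k (1 : K) = 0 := by simpa using dv_const (K := K) (1 : k)

theorem evD_zero (f : K) : evD f (0 : Dv k K) = 1 := by simp [evD]

theorem evD_single (f : K) (v : Place k K) (n : ℤ) : evD f (single v n) = v.ev f ^ n :=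
  prod_single_index (zpow_zero _)

theorem evD_eq_prod (f : K) (D : Dv k K) (S : Finset (Place k K)) (hS : D.support ⊆ S) :
    evD f D = ∏ v ∈ S, v.ev f ^ D v :=
  prod_of_support_subset D hS _ fun _ _ => zpow_zero _

theorem evD_neg (f : K) (D : Dv k K) : evD f (-D) = (evD f D)⁻¹ := by
  rw [evD_eq_prod f (-D) D.support (by simp), evD, Finsupp.prod, ← Finset.prod_inv_distrib]
  simp

theorem evD_smul (f : K) (n : ℤ) (D : Dv k K) : evD f (n • D) = evD f D ^ n := by
  rw [evD_eq_prod f (n • D) D.support support_smul, evD, Finsupp.prod, ← Finset.prod_zpow]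
  refine Finset.prod_congr rfl fun v _ => ?_
  rw [Finsupp.smul_apply, smul_eq_mul, mul_comm, zpow_mul]

theorem prod_zpow_sum {ι : Type} {c : k} (hc : c ≠ 0) (s : Finset ι) (n : ι → ℤ) :
    ∏ i ∈ s, c ^ n i = c ^ ∑ i ∈ s, n i := by
  classical
  induction s using Finset.induction_on with
  | empty => simp
  | insert i s hi ih => rw [Finset.sum_insert hi, Finset.prod_insert hi, zpow_add₀ hc, ih]

theorem evD_const {c : k} (hc : c ≠ 0) (D : Dv k K) :
    evD (algebraMap k K c) D = c ^ D.degree := by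
  simp only [evD, Finsupp.prod, Place.ev_const]
  rw [prod_zpow_sum hc]; rfl

theorem evD_one (D : Dv k K) : evD (1 : K) D = 1 := by simp [evD, Finsupp.prod]

theorem evD_congr {f g : K} {D : Dv k K} (h : ∀ v, D v ≠ 0 → v.ev f = v.ev g) :
    evD f D = evD g D :=
  Finset.prod_congr rfl fun v hv => congrArg (· ^ D v) (h v (mem_support_iff.1 hv))

variable [IsAlgClosed k]

theorem dv_ap (hK : IsFF k K) (h : K) (v : Place k K) : dv k h v = v.ord h :=
  dv_apply (fins hK h) v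

theorem dv_mul (hK : IsFF k K) {a b : K} (ha : a ≠ 0) (hb : b ≠ 0) :
    dv k (a * b) = dv k a + dv k b := by
  ext v; simp [dv_ap hK, v.ord_mul' ha hb]

theorem dv_inv (hK : IsFF k K) (a : K) : dv k a⁻¹ = -dv k a := by
  ext v; simp [dv_ap hK, v.ord_inv]

theorem dv_div (hK : IsFF k K) {a b : K} (ha : a ≠ 0) (hb : b ≠ 0) :
    dv k (a / b) = dv k a - dv k b := by
  ext v; simp [dv_ap hK, v.ord_div ha hb]

theorem dv_neg (hK : IsFF k K) (a : K) : dv k (-a) = dv k a := by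
  ext v; simp [dv_ap hK, v.ord_neg]

theorem dv_pow (hK : IsFF k K) (a : K) (n : ℕ) : dv k (a ^ n) = (n : ℤ) • dv k a := by
  ext v; simp [dv_ap hK, v.ord_pow]

theorem dv_zpow (hK : IsFF k K) (a : K) (n : ℤ) : dv k (a ^ n) = n • dv k a := by
  ext v; simp [dv_ap hK, v.ord_zpow]

theorem dv_prod (hK : IsFF k K) {ι : Type} (s : Finset ι) (f : ι → K) (hf : ∀ i ∈ s, f i ≠ 0) :
    dv k (∏ i ∈ s, f i) = ∑ i ∈ s, dv k (f i) := by
  ext v; simp [dv_ap hK, v.ord_prod s f hf, Finsupp.finsetSum_apply]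

theorem dv_act (hK : IsFF k K) (θ : SA k K) (h : K) : dv k (θ.1 h) = actD θ (dv k h) := by
  ext v
  rw [actD_apply', dv_ap hK, dv_ap hK, ← smul_ord_apply θ (θ⁻¹ • v) h, smul_inv_smul]

theorem dv_eq_zero (hK : IsFF k K) {h : K} (h0 : h ≠ 0) (v : Place k K) :
    dv k h v = 0 ↔ v.val h = 1 := by rw [dv_ap hK, v.val_one_iff (v.val_ne h0)]

theorem mem_LL_iff (hK : IsFF k K) {D : Dv k K} {h : K} (h0 : h ≠ 0) :
    h ∈ LL D ↔ 0 ≤ dv k h + D := by
  rw [mem_LL, Finsupp.le_def]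
  refine forall_congr' fun v => ?_
  rw [v.val_le_exp (v.val_ne h0), Finsupp.add_apply, dv_ap hK, Finsupp.zero_apply]
  omega

theorem off_symm (hK : IsFF k K) {f g : K} (hf : f ≠ 0) (hg : g ≠ 0) (h : Off f (dv k g)) :
    Off g (dv k f) := fun v hv => by
  by_contra h1
  exact hv ((dv_eq_zero hK hf v).2 (h v fun e => h1 ((dv_eq_zero hK hg v).1 e)))

theorem ev_spec (hK : IsFF k K) (v : Place k K) {h : K} (h1 : v.val h ≤ 1) :
    v.val (h - algebraMap k K (v.ev h)) < 1 := (res hK v).ev_spec h1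

omit [IsAlgClosed k] in
theorem val_prod_le (v : Place k K) {ι : Type} (s : Finset ι) (f : ι → K)
    (hf : ∀ i ∈ s, v.val (f i) ≤ 1) : v.val (∏ i ∈ s, f i) ≤ 1 := by
  rw [map_prod]; exact Finset.prod_le_one' hf

theorem ev_prod (hK : IsFF k K) (v : Place k K) {ι : Type} (s : Finset ι) (f : ι → K)
    (hf : ∀ i ∈ s, v.val (f i) ≤ 1) : v.ev (∏ i ∈ s, f i) = ∏ i ∈ s, v.ev (f i) := by
  classical
  induction s using Finset.induction_on with
  | empty => simp
  | insert a s ha ih =>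
    have h2 := fun i hi => hf i (Finset.mem_insert_of_mem hi)
    rw [Finset.prod_insert ha, Finset.prod_insert ha,
      (res hK v).ev_mul (hf a (Finset.mem_insert_self _ _)) (val_prod_le v s f h2), ih h2]

theorem ev_sum (hK : IsFF k K) (v : Place k K) {ι : Type} (s : Finset ι) (f : ι → K)
    (hf : ∀ i ∈ s, v.val (f i) ≤ 1) : v.ev (∑ i ∈ s, f i) = ∑ i ∈ s, v.ev (f i) := by
  classical
  induction s using Finset.induction_on with
  | empty => simp
  | insert a s ha ih =>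
    have h2 := fun i hi => hf i (Finset.mem_insert_of_mem hi)
    rw [Finset.sum_insert ha, Finset.sum_insert ha,
      (res hK v).ev_add (hf a (Finset.mem_insert_self _ _)) (v.val.map_sum_le h2), ih h2]

theorem ev_div (hK : IsFF k K) (v : Place k K) {a b : K} (ha : v.val a ≤ 1) (hb : v.val b = 1) :
    v.ev (a / b) = v.ev a / v.ev b := by
  rw [div_eq_mul_inv, (res hK v).ev_mul ha (by rw [map_inv₀, hb, inv_one]), (res hK v).ev_inv hb,
    div_eq_mul_inv]

theorem evD_ne (hK : IsFF k K) {f : K} {D : Dv k K} (h : Off f D) : evD f D ≠ 0 :=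
  Finset.prod_ne_zero_iff.2 fun v hv =>
    zpow_ne_zero _ ((res hK v).ev_ne_zero (h v (mem_support_iff.1 hv)))

theorem evD_add (hK : IsFF k K) {f : K} {D E : Dv k K} (hD : Off f D) (hE : Off f E) :
    evD f (D + E) = evD f D * evD f E := by
  classical
  rw [evD_eq_prod f (D + E) (D.support ∪ E.support) support_add,
    evD_eq_prod f D (D.support ∪ E.support) Finset.subset_union_left,
    evD_eq_prod f E (D.support ∪ E.support) Finset.subset_union_right, ← Finset.prod_mul_distrib]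
  refine Finset.prod_congr rfl fun v hv => ?_
  have : v.val f = 1 := by
    rcases Finset.mem_union.1 hv with h | h
    · exact hD v (mem_support_iff.1 h)
    · exact hE v (mem_support_iff.1 h)
  rw [Finsupp.add_apply, zpow_add₀ ((res hK v).ev_ne_zero this)]

theorem evD_sub (hK : IsFF k K) {f : K} {D E : Dv k K} (hD : Off f D) (hE : Off f E) :
    evD f (D - E) = evD f D / evD f E := by
  rw [sub_eq_add_neg, evD_add hK hD hE.neg, evD_neg, div_eq_mul_inv]

theorem evD_sum (hK : IsFF k K) {f : K} {ι : Type} (s : Finset ι) (D : ι → Dv k K)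
    (h : ∀ i ∈ s, Off f (D i)) : evD f (∑ i ∈ s, D i) = ∏ i ∈ s, evD f (D i) := by
  classical
  induction s using Finset.induction_on with
  | empty => simp [evD_zero]
  | insert a s ha ih =>
    have h2 := fun i hi => h i (Finset.mem_insert_of_mem hi)
    rw [Finset.sum_insert ha, Finset.prod_insert ha,
      evD_add hK (h a (Finset.mem_insert_self _ _)) (Off.sum s D h2), ih h2]

theorem evD_mul (hK : IsFF k K) {f g : K} {D : Dv k K} (hf : Off f D) (hg : Off g D) :
    evD (f * g) D = evD f D * evD g D := by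
  rw [evD, evD, evD, ← Finsupp.prod_mul]
  refine Finset.prod_congr rfl fun v hv => ?_
  have := mem_support_iff.1 hv
  show _ ^ _ = _ ^ _ * _ ^ _
  rw [(res hK v).ev_mul (hf v this).le (hg v this).le, mul_zpow]

theorem evD_zpow (hK : IsFF k K) {f : K} {D : Dv k K} (hf : Off f D) (n : ℤ) :
    evD (f ^ n) D = evD f D ^ n := by
  rw [evD, evD, Finsupp.prod, Finsupp.prod, ← Finset.prod_zpow]
  refine Finset.prod_congr rfl fun v hv => ?_
  rw [(res hK v).ev_zpow (hf v (mem_support_iff.1 hv)), ← zpow_mul, ← zpow_mul, mul_comm]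

theorem evD_pow (hK : IsFF k K) {f : K} {D : Dv k K} (hf : Off f D) (n : ℕ) :
    evD (f ^ n) D = evD f D ^ n := by simpa using evD_zpow hK hf n

theorem evD_inv (hK : IsFF k K) {f : K} {D : Dv k K} (hf : Off f D) :
    evD f⁻¹ D = (evD f D)⁻¹ := by simpa using evD_zpow hK hf (-1)

theorem evD_div (hK : IsFF k K) {f g : K} {D : Dv k K} (hf : Off f D) (hg : Off g D) :
    evD (f / g) D = evD f D / evD g D := by
  rw [div_eq_mul_inv, evD_mul hK hf hg.inv, evD_inv hK hg, div_eq_mul_inv]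

theorem evD_prod (hK : IsFF k K) {ι : Type} (s : Finset ι) (f : ι → K) {D : Dv k K}
    (h : ∀ i ∈ s, Off (f i) D) : evD (∏ i ∈ s, f i) D = ∏ i ∈ s, evD (f i) D := by
  classical
  induction s using Finset.induction_on with
  | empty => simp [evD_one]
  | insert a s ha ih =>
    have h2 := fun i hi => h i (Finset.mem_insert_of_mem hi)
    rw [Finset.prod_insert ha, Finset.prod_insert ha,
      evD_mul hK (h a (Finset.mem_insert_self _ _)) (Off.prod s f h2), ih h2]

section Rep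

variable {l : ℕ}

theorem exists_div (hK : IsFF k K) {f : K} (hf : ∀ v : Place k K, (l : ℤ) ∣ v.ord f) :
    ∃ D : Dv k K, dv k f = (l : ℤ) • D := by
  refine ⟨(dv k f).mapRange (· / (l : ℤ)) (Int.zero_ediv _), ?_⟩
  ext v
  rw [Finsupp.smul_apply, mapRange_apply, smul_eq_mul, dv_ap hK, Int.mul_ediv_cancel' (hf v)]

theorem exists_rep [NeZero l] (hK : IsFF k K) (a : VV k K l) :
    ∃ (f : Kˣ) (D : Dv k K), Rep f D a := by
  obtain ⟨f, hf, hd⟩ := mem_VV.1 a.2
  obtain ⟨D, hD⟩ := exists_div hK hd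
  exact ⟨f, D, hf.symm, hD⟩

theorem exists_rep_of (hK : IsFF k K) (f : Kˣ) (hf : ∀ v : Place k K, (l : ℤ) ∣ v.ord (f : K)) :
    ∃ (D : Dv k K) (a : VV k K l), Rep f D a := by
  obtain ⟨D, hD⟩ := exists_div hK hf
  exact ⟨D, ⟨Hl.mk l f, Submodule.subset_span ⟨f, rfl, hf⟩⟩, rfl, hD⟩

variable {f g : Kˣ} {D E : Dv k K} {a b : VV k K l}

theorem Rep.ord (hK : IsFF k K) (h : Rep f D a) (v : Place k K) : v.ord (f : K) = l * D v := by
  rw [← dv_ap hK, h.2]; simp

theorem Rep.dvd (hK : IsFF k K) (h : Rep f D a) (v : Place k K) : (l : ℤ) ∣ v.ord (f : K) :=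
  ⟨_, h.ord hK v⟩

theorem Rep.mul (hK : IsFF k K) (h : Rep f D a) (h' : Rep g E b) : Rep (f * g) (D + E) (a + b) :=
  ⟨by rw [Hl.mk_mul, ← h.1, ← h'.1]; rfl,
    by rw [Units.val_mul, dv_mul hK f.ne_zero g.ne_zero, h.2, h'.2, smul_add]⟩

theorem Rep.inv (hK : IsFF k K) (h : Rep f D a) : Rep f⁻¹ (-D) (-a) :=
  ⟨by rw [Hl.mk_inv, ← h.1]; rfl, by rw [Units.val_inv_eq_inv_val, dv_inv hK, h.2, smul_neg]⟩

omit [IsAlgClosed k] in
theorem Rep.one : Rep (1 : Kˣ) (0 : Dv k K) (0 : VV k K l) :=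
  ⟨rfl, by rw [Units.val_one, dv_one, smul_zero]⟩

theorem Rep.pow (hK : IsFF k K) (h : Rep f D a) (n : ℕ) : Rep (f ^ n) ((n : ℤ) • D) (n • a) :=
  ⟨by rw [Hl.mk_pow, ← h.1]; rfl,
    by rw [Units.val_pow_eq_pow_val, dv_pow hK, h.2, smul_comm]⟩

theorem Rep.mul_pow (hK : IsFF k K) (h : Rep f D a) (u : Kˣ) :
    Rep (f * u ^ l) (D + dv k (u : K)) a :=
  ⟨h.1.trans ((Hl.mk_eq_mk l _ _).2 ⟨u, rfl⟩).symm, by
    rw [Units.val_mul, Units.val_pow_eq_pow_val, dv_mul hK f.ne_zero (pow_ne_zero _ u.ne_zero),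
      dv_pow hK, h.2, smul_add]⟩

omit [IsAlgClosed k] in
theorem Rep.cls (h : Rep f D a) (h' : Rep f E b) : a = b := Subtype.ext (h.1.trans h'.1.symm)

omit [IsAlgClosed k] in
theorem Rep.div_eq [NeZero l] (h : Rep f D a) (h' : Rep f E b) : D = E := by
  have := h.2.symm.trans h'.2
  ext v
  have h2 := congrArg (· v) this
  simpa [NeZero.ne l] using h2

/-- Two representatives of one class differ by an `l`-th power. -/
theorem Rep.of_eq [NeZero l] (hK : IsFF k K) (h : Rep f D a) (h' : Rep g E a) :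
    ∃ u : Kˣ, f = g * u ^ l ∧ D = E + dv k (u : K) := by
  obtain ⟨u, hu⟩ := (Hl.mk_eq_mk l f g).1 (h.1.symm.trans h'.1)
  refine ⟨u, hu, ?_⟩
  subst hu
  exact h.div_eq (h'.mul_pow hK u)

omit [IsAlgClosed k] in
theorem Rep.eq_zero (h : Rep f D a) : a = 0 ↔ ∃ u : Kˣ, u ^ l = f := by
  rw [← Hl.mk_eq_zero, ← h.1]
  exact ⟨fun e => by rw [e]; rfl, fun e => Subtype.ext e⟩

theorem Rep.act (hK : IsFF k K) (h : Rep f D a) (θ : SA k K) :
    Rep (Units.map θ.1.toRingHom.toMonoidHom f) (actD θ D) (actV l θ a) :=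
  ⟨by
    show actH l θ (a : Hl Kˣ l) = _
    rw [h.1]; rfl, by
    show dv k (θ.1 (f : K)) = _
    rw [dv_act hK, h.2, actD_zsmul]⟩

end Rep

end Pool.Agent.MP_cce4c9_lc.H7
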