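import Pool.Agent.MP_cce4c9_lc.H32.Bcd

/-! The Gauss valuation on a base change. -/

set_option autoImplicit false

open scoped TensorProduct

namespace Pool.Agent.MP_cce4c9_lc.H7

open Pool.Agent.MP_cce4c9_lc.H87 Pool.Agent.MP_cce4c9_lc.H32.Bcd

namespace Gs

variable {k K Ω : Type} [Field k] [Field K] [Algebra k K] [Field Ω] [Algebra k Ω]
  (B : BCD k K Ω) (P : KP k Ω)

/-- Integral tensors as functions. -/
noncomputable def jj : sub P ⊗[k] K →+* B.F := (mul B).toRingHom.comp (inc K P).toRingHom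

theorem jj_apply (x : sub P ⊗[k] K) : jj B P x = mul B (inc K P x) := rfl

theorem jj_inj : Function.Injective (jj B P) := (mul_inj B).comp (inc_inj P)

theorem jj_ne {y : sub P ⊗[k] K} (hy : red K P y ≠ 0) : jj B P y ≠ 0 := fun h =>
  hy (by rw [jj_inj B P (h.trans (map_zero _).symm), map_zero])

theorem jj_tmul (a : sub P) (h : K) :
    jj B P (a ⊗ₜ h) = algebraMap Ω B.F a * algebraMap K B.F h := rfl

theorem red_tmul (a : sub P) (h : K) : red K P (a ⊗ₜ h) = algebraMap k K (res P a) * h := rfl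

theorem scale' (x : Ω ⊗[k] K) (hx : x ≠ 0) : ∃ (a : Ω) (y : sub P ⊗[k] K), a ≠ 0 ∧
    inc K P y = a • x ∧ jj B P y = algebraMap Ω B.F a * mul B x ∧ red K P y ≠ 0 := by
  obtain ⟨a, y, h1, h2⟩ := scale P x hx
  refine ⟨a, y, fun e => h2 ?_, h1, by rw [jj_apply, h1, map_smul, Algebra.smul_def], h2⟩
  rw [inc_inj P (h1.trans (by rw [e, zero_smul, map_zero]) : _ = inc K P 0), map_zero]

theorem frac (Φ : B.F) : ∃ (x : Ω ⊗[k] K) (y : sub P ⊗[k] K), red K P y ≠ 0 ∧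
    Φ * jj B P y = mul B x := by
  obtain ⟨a, ha, b, hb, hb0, h⟩ := B.gen Φ
  obtain ⟨x, rfl⟩ := span_le B ha
  obtain ⟨z, rfl⟩ := span_le B hb
  obtain ⟨c, y, -, -, h1, h2⟩ := scale' B P z fun e => hb0 (by rw [e, map_zero])
  exact ⟨c • x, y, h2, by rw [h1, map_smul, Algebra.smul_def, ← h]; ring⟩

theorem frac' {Φ : B.F} (h0 : Φ ≠ 0) : ∃ (a : Ω) (x y : sub P ⊗[k] K), a ≠ 0 ∧ red K P x ≠ 0 ∧
    red K P y ≠ 0 ∧ algebraMap Ω B.F a * Φ * jj B P y = jj B P x := by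
  obtain ⟨z, y, hy, h⟩ := frac B P Φ
  obtain ⟨a, x, ha, -, h1, h2⟩ := scale' B P z fun e =>
    mul_ne_zero h0 (jj_ne B P hy) (by rw [h, e, map_zero])
  exact ⟨a, x, y, ha, h2, hy, by rw [h1, ← h, mul_assoc]⟩

/-- The Gauss valuation ring. -/
def G : ValuationSubring B.F where
  carrier := {Φ | ∃ x y : sub P ⊗[k] K, red K P y ≠ 0 ∧ Φ * jj B P y = jj B P x}
  mul_mem' := by
    rintro a b ⟨x, y, hy, h⟩ ⟨x', y', hy', h'⟩
    exact ⟨x * x', y * y', by rw [map_mul]; exact mul_ne_zero hy hy', by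
      rw [map_mul, map_mul, ← h, ← h']; ring⟩
  one_mem' := ⟨1, 1, by simp, one_mul _⟩
  add_mem' := by
    rintro a b ⟨x, y, hy, h⟩ ⟨x', y', hy', h'⟩
    exact ⟨x * y' + x' * y, y * y', by rw [map_mul]; exact mul_ne_zero hy hy', by
      rw [map_add, map_mul, map_mul, map_mul, ← h, ← h']; ring⟩
  zero_mem' := ⟨0, 1, by simp, by simp⟩
  neg_mem' := by
    rintro a ⟨x, y, hy, h⟩
    exact ⟨-x, y, hy, by rw [map_neg, ← h]; ring⟩
  mem_or_inv_mem' := fun Φ => by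
    by_cases h0 : Φ = 0
    · exact Or.inl ⟨0, 1, by simp, by simp [h0]⟩
    obtain ⟨a, x, y, ha, hx, hy, h⟩ := frac' B P h0
    have ha' : algebraMap Ω B.F a ≠ 0 := by simpa using ha
    rcases P.O.mem_or_inv_mem a with h1 | h1
    · refine Or.inr ⟨(⟨a, h1⟩ : sub P) ⊗ₜ 1 * y, x, hx, ?_⟩
      rw [map_mul, jj_tmul, ← h, map_one]
      field_simp
    · refine Or.inl ⟨(⟨a⁻¹, h1⟩ : sub P) ⊗ₜ 1 * x, y, hy, ?_⟩
      rw [map_mul, jj_tmul, ← h, map_one, map_inv₀]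
      field_simp

/-- The reduction of an element of the Gauss ring. -/
noncomputable def rd (Φ : G B P) : K := red K P Φ.2.choose / red K P Φ.2.choose_spec.choose

theorem rd_eq (Φ : G B P) {x y : sub P ⊗[k] K} (hy : red K P y ≠ 0)
    (h : Φ * jj B P y = jj B P x) : rd B P Φ = red K P x / red K P y := by
  obtain ⟨h1, h2⟩ := Φ.2.choose_spec.choose_spec
  rw [rd, div_eq_div_iff h1 hy, ← map_mul, ← map_mul]
  congr 1
  apply jj_inj B P
  rw [map_mul, map_mul]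
  linear_combination jj B P Φ.2.choose_spec.choose * h - jj B P y * h2

/-- The reduction as a ring homomorphism. -/
noncomputable def rdH : G B P →+* K where
  toFun := rd B P
  map_one' := by rw [rd_eq B P 1 (x := 1) (y := 1) (by simp) (by simp)]; simp
  map_zero' := by rw [rd_eq B P 0 (x := 0) (y := 1) (by simp) (by simp)]; simp
  map_mul' := fun a b => by
    obtain ⟨x, y, hy, h⟩ := a.2
    obtain ⟨x', y', hy', h'⟩ := b.2
    rw [rd_eq B P a hy h, rd_eq B P b hy' h', rd_eq B P (a * b) (x := x * x') (y := y * y')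
      (by rw [map_mul]; exact mul_ne_zero hy hy')
      (by rw [map_mul, map_mul, ← h, ← h', MulMemClass.coe_mul]; ring), map_mul, map_mul,
      div_mul_div_comm]
  map_add' := fun a b => by
    obtain ⟨x, y, hy, h⟩ := a.2
    obtain ⟨x', y', hy', h'⟩ := b.2
    rw [rd_eq B P a hy h, rd_eq B P b hy' h', rd_eq B P (a + b) (x := x * y' + x' * y)
      (y := y * y') (by rw [map_mul]; exact mul_ne_zero hy hy')
      (by rw [map_add, map_mul, map_mul, map_mul, ← h, ← h', AddMemClass.coe_add]; ring),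
      map_add, map_mul, map_mul, map_mul]
    field_simp

theorem rd_ker (Φ : G B P) : rdH B P Φ = 0 ↔ (G B P).valuation Φ < 1 := by
  rw [← not_iff_not, not_lt, ← Ne, ((G B P).valuation_le_one Φ).ge_iff_eq,
    ← ValuationSubring.valuation_eq_one_iff]
  refine ⟨fun h0 => ?_, fun h => (h.map (rdH B P)).ne_zero⟩
  obtain ⟨x, y, hy, h⟩ := Φ.2
  have hx : red K P x ≠ 0 := fun e => h0 ((rd_eq B P Φ hy h).trans (by rw [e, zero_div]))
  have hΦ : (Φ : B.F) ≠ 0 := fun e => jj_ne B P hx (by rw [← h, e, zero_mul])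
  exact IsUnit.of_mul_eq_one ⟨(Φ : B.F)⁻¹, y, x, hx, by rw [← h]; field_simp⟩
    (Subtype.ext (mul_inv_cancel₀ hΦ))

theorem mem_tmul (a : sub P) (h : K) : jj B P (a ⊗ₜ h) ∈ G B P :=
  ⟨a ⊗ₜ h, 1, by simp, by simp⟩

theorem rd_tmul (a : sub P) (h : K) {Φ : G B P} (e : Φ = jj B P (a ⊗ₜ h)) :
    rdH B P Φ = algebraMap k K (res P a) * h :=
  (rd_eq B P Φ (x := a ⊗ₜ h) (y := 1) (by simp) (by simp [e])).trans (by simp [red_tmul])

theorem memO (a : P.O) : algebraMap Ω B.F a ∈ G B P := by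
  simpa [jj_tmul] using mem_tmul B P ⟨a.1, a.2⟩ 1

theorem rdO (a : P.O) : rdH B P ⟨_, memO B P a⟩ = algebraMap k K (P.ρ a) :=
  (rd_tmul B P ⟨a.1, a.2⟩ 1 (by simp [jj_tmul])).trans (mul_one _)

theorem memO_iff (a : Ω) : algebraMap Ω B.F a ∈ G B P ↔ a ∈ P.O := by
  refine ⟨fun h => ?_, fun h => memO B P ⟨a, h⟩⟩
  by_contra hn
  have h1 := (P.O.mem_or_inv_mem a).resolve_left hn
  have h0 : a ≠ 0 := fun e => hn (e ▸ P.O.zero_mem)
  have h2 : P.ρ ⟨_, h1⟩ = 0 := (P.ker _).2 (by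
    show P.O.valuation a⁻¹ < 1
    rw [map_inv₀]
    exact inv_lt_one_of_one_lt₀ (not_le.1 fun e => hn ((P.O.valuation_le_one_iff a).1 e)))
  have h3 : (⟨_, h⟩ : G B P) * ⟨_, memO B P ⟨_, h1⟩⟩ = 1 :=
    Subtype.ext (by simp [h0])
  have h4 := congrArg (rdH B P) h3
  rw [map_mul, rdO, h2, map_zero, mul_zero, map_one] at h4
  exact zero_ne_one h4

theorem nc (Φ : B.F) (hΦ : Φ ∉ Set.range (algebraMap Ω B.F)) : ∃ a c : Ω,
    ∃ h : algebraMap Ω B.F a * (Φ - algebraMap Ω B.F c) ∈ G B P,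
      rdH B P ⟨_, h⟩ ∉ Set.range (algebraMap k K) := by
  obtain ⟨z, y, hy, h⟩ := frac B P Φ
  obtain ⟨φ, hφ⟩ := Module.Projective.exists_dual_eq_one k hy
  let ψ : Ω ⊗[k] K →ₗ[Ω] Ω := (TensorProduct.AlgebraTensorModule.rid k Ω Ω).toLinearMap ∘ₗ
    LinearMap.baseChange Ω φ
  have key : ∀ x : sub P ⊗[k] K, P.Rd (ψ (inc K P x)) (φ (red K P x)) := fun x => by
    induction x using TensorProduct.induction_on with
    | zero =>
      simp only [map_zero]
      exact ⟨P.O.zero_mem, P.ρ.map_zero⟩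
    | tmul a g =>
      have e1 : ψ (inc K P (a ⊗ₜ g)) = algebraMap k Ω (φ g) * a := by
        rw [← Algebra.smul_def]; rfl
      rw [red_tmul, ← Algebra.smul_def, map_smul, smul_eq_mul, mul_comm _ (φ g), e1]
      exact ⟨mul_mem (P.mem _) a.2, (P.ρ.map_mul ⟨_, P.mem _⟩ ⟨a.1, a.2⟩).trans
        (by rw [P.const]; rfl)⟩
    | add x x' hx hx' =>
      obtain ⟨h1, e1⟩ := hx
      obtain ⟨h2, e2⟩ := hx'
      simp only [map_add]
      exact ⟨add_mem h1 h2, (P.ρ.map_add ⟨_, h1⟩ ⟨_, h2⟩).trans (by rw [e1, e2])⟩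
  have hzero : ∀ x : sub P ⊗[k] K, ψ (inc K P x) = 0 → φ (red K P x) = 0 := fun x e => by
    obtain ⟨h1, e1⟩ := key x
    rw [← e1, show (⟨_, h1⟩ : P.O) = 0 from Subtype.ext e, map_zero]
  have hy1 : ψ (inc K P y) ≠ 0 := fun e => by simpa [hφ] using hzero y e
  set c := ψ z / ψ (inc K P y) with hc
  have h1 : (Φ - algebraMap Ω B.F c) * jj B P y = mul B (z - c • inc K P y) := by
    rw [map_sub, map_smul, Algebra.smul_def, ← h, jj_apply]; ring
  obtain ⟨a, x, -, h2, h3, hx⟩ := scale' B P (z - c • inc K P y) fun e => by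
    rw [e, map_zero, mul_eq_zero, sub_eq_zero] at h1
    exact h1.elim (fun e => hΦ ⟨c, e.symm⟩) (jj_ne B P hy)
  have h4 : algebraMap Ω B.F a * (Φ - algebraMap Ω B.F c) * jj B P y = jj B P x := by
    rw [h3, ← h1, mul_assoc]
  refine ⟨a, c, ⟨x, y, hy, h4⟩, ?_⟩
  rintro ⟨d, hd⟩
  have h5 := hd.trans (rd_eq B P _ hy h4)
  have h6 := hzero x (by
    rw [h2, map_smul, map_sub, map_smul, hc, smul_eq_mul, smul_eq_mul, div_mul_cancel₀ _ hy1,
      sub_self, mul_zero])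
  rw [eq_div_iff hy] at h5
  rw [← h5, ← Algebra.smul_def, map_smul, hφ, smul_eq_mul, mul_one] at h6
  exact hx (by rw [← h5, h6, map_zero, zero_mul])

end Gs

theorem gauss' : StmtGAUSS := fun k K Ω _ _ _ _ _ B P =>
  ⟨{ G := Gs.G B P
     red := Gs.rdH B P
     memK := fun h => by simpa [Gs.jj_tmul] using Gs.mem_tmul B P 1 h
     redK := fun h => (Gs.rd_tmul B P 1 h (by simp [Gs.jj_tmul])).trans (by simp)
     memΩ := Gs.memO_iff B P
     redΩ := Gs.rdO B P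
     ker := Gs.rd_ker B P
     norm := fun Φ h0 => by
       obtain ⟨a, x, y, -, hx, hy, h⟩ := Gs.frac' B P h0
       refine ⟨a, le_antisymm ((Gs.G B P).valuation_le_one ⟨_, x, y, hy, h⟩) (not_lt.1 fun e => ?_)⟩
       exact div_ne_zero hx hy
         ((Gs.rd_eq B P _ hy h).symm.trans ((Gs.rd_ker B P ⟨_, x, y, hy, h⟩).2 e))
     nc := Gs.nc B P }⟩

end Pool.Agent.MP_cce4c9_lc.H7
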