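import Pool.Agent.MP_cce4c9_lc.H7.Base2

/-! The trace formula modulo `l`. -/

set_option autoImplicit false

open WithZero Finsupp Module
open scoped IntermediateField

namespace Pool.Agent.MP_cce4c9_lc.H7

open Pool.Agent.MP_cce4c9_lc.H87

section Dat

variable {k K L : Type} [Field k] [Field K] [Algebra k K] [Field L] [Algebra k L] [Algebra K L]
  {l : ℕ} [NeZero l] {ζ : k} {dn : Place k L → Place k K}

theorem Dat.mul (hζ : ζ ^ l = 1) {H H' : L} {w w' : (L ≃ₐ[K] L) → L}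
    {ω ω' : (L ≃ₐ[K] L) → (L ≃ₐ[K] L) → ZMod l} {B B' : Place k K → ZMod l}
    (h : Dat ζ dn H w ω B) (h' : Dat ζ dn H' w' ω' B') :
    Dat ζ dn (H * H') (fun γ => w γ * w' γ) (fun γ δ => ω γ δ + ω' γ δ) (fun x => B x + B' x) := by
  obtain ⟨h1, h2, h3, h4⟩ := h
  obtain ⟨h1', h2', h3', h4'⟩ := h'
  refine ⟨mul_ne_zero h1 h1', fun γ => ?_, fun γ δ => ?_, fun y => ?_⟩
  · rw [map_mul, h2, h2']; ring
  · simp only [map_mul, zeta_add hζ]
    linear_combination (w' γ * γ (w' δ)) * h3 γ δ +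
      (algebraMap k L (ζ ^ (ω γ δ).val) * (w δ * δ (w γ))) * h3' γ δ
  · rw [y.ord_mul' h1 h1', Int.cast_add, h4, h4']

theorem Dat.prod (hζ : ζ ^ l = 1) {ι : Type} (s : Finset ι) {H : ι → L}
    {w : ι → (L ≃ₐ[K] L) → L} {ω : ι → (L ≃ₐ[K] L) → (L ≃ₐ[K] L) → ZMod l}
    {B : ι → Place k K → ZMod l} (h : ∀ i, Dat ζ dn (H i) (w i) (ω i) (B i)) :
    Dat ζ dn (∏ i ∈ s, H i) (fun γ => ∏ i ∈ s, w i γ) (fun γ δ => ∑ i ∈ s, ω i γ δ)
      (fun x => ∑ i ∈ s, B i x) := by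
  classical
  induction s using Finset.induction_on with
  | empty => exact ⟨by simp, by simp, by simp, by simp⟩
  | insert i s hi ih =>
    simp only [Finset.prod_insert hi, Finset.sum_insert hi]
    exact (h i).mul hζ ih

end Dat

/-- An endomorphism written through a nondegenerate alternating form. -/
theorem exists_dual {F V : Type} [Field F] [AddCommGroup V] [Module F V] [Module.Finite F V]
    (e : V →ₗ[F] V →ₗ[F] F) (hs : ∀ a b, e a b = -e b a) (nd : ∀ a, (∀ b, e a b = 0) → a = 0)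
    (A : V →ₗ[F] V) : ∃ (n : ℕ) (v b : Fin n → V), (∀ u, A u = ∑ i, e u (b i) • v i) ∧
      LinearMap.trace F V A = ∑ i, e (v i) (b i) := by
  classical
  have hinj : Function.Injective (e.flip : V →ₗ[F] Dual F V) := by
    rw [injective_iff_map_eq_zero]
    intro a ha
    refine nd a fun b => ?_
    rw [hs, neg_eq_zero]
    exact LinearMap.congr_fun ha b
  have hsurj := (LinearMap.injective_iff_surjective_of_finrank_eq_finrank
    (Subspace.dual_finrank_eq (K := F) (V := V)).symm).1 hinj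
  let v := Module.finBasis F V
  choose b hb using fun i => hsurj ((v.coord i).comp A)
  have hb' : ∀ i u, e u (b i) = v.repr (A u) i := fun i u => LinearMap.congr_fun (hb i) u
  refine ⟨_, v, b, fun u => ?_, ?_⟩
  · simp only [hb']
    exact (v.sum_repr _).symm
  · rw [LinearMap.trace_eq_matrix_trace F v, Matrix.trace]
    simp [hb', LinearMap.toMatrix_apply]

section Frob

variable {k K : Type} [Field k] [Field K] [Algebra k K]

theorem exists_gf (p a : ℕ) [Fact p.Prime] [CharP k p] (σ : SA k K) (hσ : IsFrob (p ^ a) σ) :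
    ∃ φ : K →ₐ[k] K, IsGF (p ^ a) σ φ := by
  have : CharP K p := charP_of_injective_algebraMap (algebraMap k K).injective p
  refine ⟨{ (iterateFrobenius K p a).comp (σ⁻¹).1.toRingHom with commutes' := fun c => ?_ },
    fun h => rfl⟩
  show (σ⁻¹).1 (algebraMap k K c) ^ p ^ a = _
  rw [← map_pow, ← map_pow, ← hσ c]
  exact σ.1.symm_apply_apply _

theorem IsGF.ne_id {q : ℕ} {σ : SA k K} {φ : K →ₐ[k] K} (h : IsGF q σ φ) (hq : 1 < q)
    (v : Place k K) : φ ≠ AlgHom.id k K := fun e => by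
  obtain ⟨π, hπ⟩ := v.exists_unif
  have h1 := congrArg v.ord (h π)
  rw [e, AlgHom.id_apply, v.ord_pow, v.ord_eq hπ] at h1
  have := Int.eq_one_of_mul_eq_one_right (Int.natCast_nonneg q) h1.symm
  omega

end Frob

theorem t0 (hLL : StmtLL) (hEXT : StmtEXT) (hGAL : StmtGAL) (hBCK : StmtBCK) (hWP : StmtWP)
    (hMAB : StmtMAB) (hTH : StmtTH) (hCOC : StmtCOC) (hKUM : StmtKUM) (hPERF : StmtPERF)
    (hADJ : StmtADJ) (hCOV : StmtCOV) (hDAT : StmtDAT) (hORD : StmtORD) : StmtT0 := by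
  intro k K _ _ _ _ l p _ _ _ hK hlp
  classical
  have hl : l.Prime := Fact.out
  have hp : p.Prime := Fact.out
  have hlk : (l : k) ≠ 0 := fun h =>
    hlp ((Nat.prime_dvd_prime_iff_eq hp hl).1 ((CharP.cast_eq_zero_iff k p l).1 h)).symm
  have : NeZero (l : k) := ⟨hlk⟩
  obtain ⟨ζ, hζ⟩ := HasEnoughRootsOfUnity.exists_primitiveRoot k l
  have hζ1 := hζ.pow_eq_one
  let Ω := AlgebraicClosure K
  obtain ⟨B⟩ := hBCK k K Ω hK
  obtain ⟨e, he⟩ := (hWP k K l hK).2 ζ hζ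
  have := (hLL k K hK).2.2.2
  obtain ⟨x₀, x₁, hx⟩ := exists_pair_ne (Place k K)
  obtain ⟨C₀⟩ := hCOC k K Ω B l x₀ hK hlk
  have hkum := hKUM k K Ω B l ζ e x₀ C₀ hK hζ he
  obtain ⟨hsurj, hfin, hnd⟩ := hPERF k K Ω l ζ e C₀.c hK hζ he.1 hkum C₀.finr
  refine ⟨hfin, fun a σ ha hσ => ?_⟩
  obtain ⟨φ, hφ⟩ := exists_gf p a σ hσ
  have hq : 1 < p ^ a := Nat.one_lt_pow ha.ne' hp.one_lt
  generalize p ^ a = q at hφ hq
  obtain ⟨C, hC0, hC1⟩ := hADJ k K Ω B l ζ e x₀ x₁ φ hK hx (hφ.ne_id hq x₀)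
    ⟨C₀, hkum, hsurj, hfin, hnd⟩
  obtain ⟨L, hL⟩ := hCOV k K Ω l p hK hlp hfin
  have := hL.fd
  have := hL.gal
  obtain ⟨dn, ed, hdn, hfib⟩ := hEXT k K L hK
  have hdn1 : ∀ y, Over y (dn y) 1 := fun y =>
    (hGAL k K L hK).2.1 hL.free y _ _ (hdn y) ▸ hdn y
  have hdns : Function.Surjective dn := fun x => by
    obtain ⟨S, hS, hs⟩ := hfib x
    rcases S.eq_empty_or_nonempty with rfl | ⟨y, hy⟩
    · exact absurd hs.symm (by simpa using (finrank_pos (R := K) (M := L)).ne')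
    · exact ⟨y, (hS y).1 hy⟩
  let A : VV k K l →ₗ[ZMod l] VV k K l := (q : ZMod l) • actV l σ⁻¹
  have hA : ∀ (f : Kˣ) (D : Dv k K) (u : VV k K l), Rep f D u →
      ∃ D', Rep (Units.map (φ : K →* K) f) D' (A u) := fun f D u hf => by
    have h1 := (hf.act hK σ⁻¹).pow hK q
    rw [← Nat.cast_smul_eq_nsmul (ZMod l)] at h1
    have h2 : Units.map (φ : K →* K) f = Units.map (σ⁻¹).1.toRingHom.toMonoidHom f ^ q :=
      Units.ext (hφ f)
    exact ⟨_, h2 ▸ h1⟩
  obtain ⟨j, H, w, c', hj, hH, hc', hw, hω⟩ :=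
    hDAT k K Ω B l p ζ e x₀ x₁ φ A C L hK hlp hζ hL hA hC0 hC1
  have hord := hORD k K Ω B l p q ζ e x₀ x₁ σ φ C L dn hK hlp hζ hq hx hφ hL hdn1 hC0 hC1 j H hj hH
  have hH0 : H ≠ 0 := fun h0 => by
    rw [h0] at hH
    exact pow_ne_zero _ (div_ne_zero ((res B.ff _).ev_ne_zero hC0) ((res B.ff _).ev_ne_zero hC1))
      hH.symm
  have hFix : {x : Place k K | σ • x = x}.Finite := by
    refine (((fins (hK.of_finite L) H).image dn).union
      (Set.toFinite {σ⁻¹ • x₀, x₁})).subset fun x hx1 => ?_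
    obtain ⟨y, rfl⟩ := hdns x
    by_contra hn
    simp only [Set.mem_union, Set.mem_insert_iff, Set.mem_singleton_iff, not_or] at hn
    have h1 := hord y
    rw [if_pos (show σ • dn y = dn y from hx1), if_neg (fun h => hn.2.1 (by rw [← h, inv_smul_smul])),
      if_neg hn.2.2] at h1
    refine hn.1 ⟨y, fun h0 => ?_, rfl⟩
    have h0' : y.ord H = 0 := h0
    simp [h0'] at h1
  refine ⟨hFix, ?_⟩
  let Bπ : Dv k K := ∑ x ∈ hFix.toFinset, single x 1 - single (σ⁻¹ • x₀) (q : ℤ) - single x₁ 1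
  have hD : Dat ζ dn H w (fun γ δ => e (c' γ) (A (c' δ)) - e (c' δ) (A (c' γ)))
      (fun x => (Bπ x : ZMod l)) := by
    refine ⟨hH0, hw, hω, fun y => ?_⟩
    rw [hord y]
    simp only [Bπ, Finsupp.sub_apply, Finsupp.finsetSum_apply, single_apply, Finset.sum_ite_eq',
      Set.Finite.mem_toFinset, Set.mem_ofPred_eq, inv_smul_eq_iff, eq_comm (a := x₀),
      eq_comm (a := x₁)]
    push_cast
    rfl
  obtain ⟨n, v, b, hvb, htr⟩ := exists_dual e he.1 C.nd A
  have hroot : ∀ u : VV k K l, ∃ (f : Kˣ) (D : Dv k K) (α : L), Rep f D u ∧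
      α ^ l = algebraMap K L f ∧
      ∀ γ : L ≃ₐ[K] L, γ α = algebraMap k L (ζ ^ (e (c' γ) u).val) * α := fun u => by
    obtain ⟨f, D, hf⟩ := exists_rep hK u
    obtain ⟨r, hr⟩ := IsAlgClosed.exists_pow_nat_eq (algebraMap K Ω f) hl.pos
    refine ⟨f, D, ⟨r, hL.mem f r f.ne_zero (hf.dvd hK) hr⟩, hf, Subtype.ext hr, fun γ => ?_⟩
    obtain ⟨τ, hτ⟩ := hL.lift γ
    apply Subtype.ext
    rw [← hτ, hc' τ γ hτ]
    exact C.kum τ f D u r hf hr
  choose f D α hf hα hγ using hroot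
  choose H' w' B' hD' hB' using fun i => hMAB k K L l ζ e dn hK hζ he hdn1 _ _ _ _ (b i) (v i) _ _
    (fun γ => e (c' γ) (b i)) (fun γ => e (c' γ) (v i)) (hf _) (hf _) (hα _) (hα _) (hγ _) (hγ _)
  have h1 := hD.mul hζ1 (Dat.prod hζ1 Finset.univ hD')
  have h2 := hTH k K L l ζ dn hK hζ hdn1 hdns hL.comm hL.pow _ _ (Bπ + ∑ i, B' i) (by
    convert h1 using 3 with γ δ x
    · rw [hvb, hvb]
      simp only [map_sum, map_smul, smul_eq_mul, Finset.sum_sub_distrib]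
      ring
    · simp)
  rw [← smul_eq_mul, ← map_smul, htr, Set.ncard_eq_toFinset_card _ hFix]
  simp only [Bπ, map_add, map_sub, map_sum, degree_single, Finset.sum_const] at h2
  push_cast at h2
  simp only [hB', fun i => (he.1 (v i) (b i)).symm] at h2
  rw [nsmul_eq_mul, mul_one, Int.cast_natCast] at h2
  linear_combination h2

end Pool.Agent.MP_cce4c9_lc.H7
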