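import Pool.Agent.MP_cce4c9_lc.H7.AllA
import Pool.Agent.MP_cce4c9_lc.H7.T0
import Pool.Agent.MP_cce4c9_lc.H62.Tsen
import Pool.Agent.MP_cce4c9_lc.H25.NRed
import Pool.Agent.MP_cce4c9_lc.H40.Red
import Pool.Agent.MP_cce4c9_lc.H5.Bck
import Pool.Agent.MP_cce4c9_lc.H33.Disc
import Pool.Agent.MP_cce4c9_lc.H54.Rig
import Pool.Agent.MP_cce4c9_lc.H88.Spec
import Pool.Agent.MP_cce4c9_lc.H28.WP
import Pool.Agent.MP_cce4c9_lc.H68.Mab
import Pool.Agent.MP_cce4c9_lc.H15.TH
import Pool.Agent.MP_cce4c9_lc.H3.Coc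
import Pool.Agent.MP_cce4c9_lc.H36.Kum
import Pool.Agent.MP_cce4c9_lc.H14.Cov
import Pool.Agent.MP_cce4c9_lc.H94.Dat
import Pool.Agent.MP_cce4c9_lc.H83.Ord
import Pool.Agent.MP_cce4c9_lc.H7.Gauss
import Pool.Agent.MP_cce4c9_lc.H12.Div

/-! The function field part without hypotheses. -/

set_option autoImplicit false

namespace Pool.Agent.MP_cce4c9_lc.H7

open Pool.Agent.MP_cce4c9_lc.H87

theorem tsen : StmtTSEN := H62.tsen
theorem gauss : StmtGAUSS := gauss'
theorem nred : StmtNRED := H25.nred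
theorem red : StmtRED := H40.red dvr gauss nred np
theorem bck : StmtBCK := H5.bck dvr chev bcd nred red
theorem disc : StmtDISC := H33.disc
theorem rigd : StmtRIGD := H54.rigd ll deg gen disc
theorem rig : StmtRIG := H54.rig ll chev red rigd
theorem spec : StmtSPEC := H88.spec dvr ri chev
theorem dvs : StmtDIV := H12.div ll deg gen chev bck red rig spec
theorem wp : StmtWP := H28.wp wr
theorem mab : StmtMAB := H68.mab deg ext gal wr tsen wp
theorem th : StmtTH := H15.th deg
theorem coc : StmtCOC := H3.coc ll deg gen dvs rig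
theorem kum : StmtKUM := H36.kum deg wr wp
theorem perf : StmtPERF := H15.perf
theorem adj : StmtADJ := H33.adj chev red disc
theorem cov : StmtCOV := H14.cov gal
theorem dat : StmtDAT := H94.dat wp
theorem ordF : StmtORD := H83.ord chev red disc

/-- The trace formula modulo `l`. -/
theorem trace_formula : StmtT0 := t0 ll ext gal bck wp mab th coc kum perf adj cov dat ordF

theorem rtB {k K Ω : Type} [Field k] [IsAlgClosed k] [Field K] [Algebra k K] [Field Ω]
    [IsAlgClosed Ω] [Algebra k Ω] (hK : IsFF k K) (B : BCK k K Ω) (P : KP k Ω) :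
    Nonempty (Red B.toBCD P) := red k K Ω B.toBCD P hK

end Pool.Agent.MP_cce4c9_lc.H7
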