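import Pool.Agent.MP_cce4c9_lc.H7.Forms
import Pool.Agent.MP_cce4c9_lc.H70.Dvr
import Pool.Agent.MP_cce4c9_lc.H51.LL
import Pool.Agent.MP_cce4c9_lc.H52.Deg
import Pool.Agent.MP_cce4c9_lc.H82.RI
import Pool.Agent.MP_cce4c9_lc.H59.Gen
import Pool.Agent.MP_cce4c9_lc.H14.Ext
import Pool.Agent.MP_cce4c9_lc.H16.Norm
import Pool.Agent.MP_cce4c9_lc.H9.NP
import Pool.Agent.MP_cce4c9_lc.H30.Gal
import Pool.Agent.MP_cce4c9_lc.H32.Bcd

/-! Places, degrees, genus, extensions and reciprocity, without hypotheses. -/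

set_option autoImplicit false

open WithZero Module

namespace Pool.Agent.MP_cce4c9_lc.H7

open Pool.Agent.MP_cce4c9_lc.H87

theorem dvr : StmtDVR := H70.dvr
theorem ll : StmtLL := H51.ll dvr
theorem deg : StmtDEG := H52.deg ll
theorem ri : StmtRI := H82.ri ll deg
theorem gen : StmtGEN := H59.gen ll deg ri
theorem ext : StmtEXT := H14.ext dvr deg ri
theorem nrm : StmtNORM := H16.norm ext
theorem np : StmtNP := H9.np deg ext nrm
theorem wr : StmtWR := H9.wr deg np
theorem gal : StmtGAL := H30.gal ext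
theorem chev : StmtCHEV := H32.chev
theorem bcd : StmtBCD := H32.bcd chev

variable {k K : Type} [Field k] [IsAlgClosed k] [Field K] [Algebra k K]

theorem degF (hK : IsFF k K) (h : K) :
    (Function.support fun v : Place k K => v.ord h).Finite ∧ (dv k h).degree = 0 ∧
      ((∀ v : Place k K, v.val h ≤ 1) → h ∈ Set.range (algebraMap k K)) := deg_of ll deg hK h

theorem degR [Algebra (RatFunc k) K] [IsScalarTower k (RatFunc k) K]
    [FiniteDimensional (RatFunc k) K] :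
    IsFF k K ∧ ∀ (c : k) (s : K), s = algebraMap (RatFunc k) K RatFunc.X - algebraMap k K c →
      ∑ v ∈ (dv k s).support, max (v.ord s) 0 = finrank (RatFunc k) K ∧
      ∀ v : Place k K, v.ord s < 0 ↔ 1 < v.val (algebraMap (RatFunc k) K RatFunc.X) := degr_of deg

theorem genus (hK : IsFF k K) : ∃ g, IsGenus k K g := (gen k K hK).1

theorem jet (hK : IsFF k K) {g : ℕ} (hg : IsGenus k K g) {D E : Dv k K}
    (hE : 0 ≤ E) (hD : ∀ v, E v ≠ 0 → D v = 0) (hd : 2 * (g : ℤ) ≤ D.degree - E.degree) :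
    ∃ y ∈ LL D, ∀ v, E v ≠ 0 → v.val (y - 1) ≤ exp (-E v) := jet_of gen hK hg hE hD hd

theorem chevH {Ω R : Type} [Field Ω] [Algebra k Ω] [CommRing R] [Algebra k R]
    (i : R →ₐ[k] Ω) (φ : R →ₐ[k] k) (h : ∀ r, i r = 0 → φ r = 0) :
    ∃ P : KP k Ω, ∀ r, P.Rd (i r) (φ r) := chev_of chev i φ h

end Pool.Agent.MP_cce4c9_lc.H7
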