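import Pool.Agent.MP_cce4c9_lc.H7.Base

/-! Places of the base change: constant places, generic places, Galois action, reduction. -/

set_option autoImplicit false

open WithZero Finsupp
open scoped IntermediateField

namespace Pool.Agent.MP_cce4c9_lc.H7

open Pool.Agent.MP_cce4c9_lc.H87

variable {k K Ω : Type} [Field k] [Field K] [Algebra k K] [Field Ω] [Algebra k Ω]

section KP

variable {P : KP k Ω} {a b : Ω} {c d : k}

theorem rd_unique (h : P.Rd a c) (h' : P.Rd a d) : c = d := by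
  obtain ⟨_, rfl⟩ := h
  obtain ⟨_, rfl⟩ := h'
  rfl

theorem rd_const (P : KP k Ω) (c : k) : P.Rd (algebraMap k Ω c) c := ⟨P.mem c, P.const c⟩

theorem rd_add (h : P.Rd a c) (h' : P.Rd b d) : P.Rd (a + b) (c + d) := by
  obtain ⟨ha, rfl⟩ := h
  obtain ⟨hb, rfl⟩ := h'
  exact ⟨add_mem ha hb, map_add P.ρ ⟨a, ha⟩ ⟨b, hb⟩⟩

theorem rd_mul (h : P.Rd a c) (h' : P.Rd b d) : P.Rd (a * b) (c * d) := by
  obtain ⟨ha, rfl⟩ := h
  obtain ⟨hb, rfl⟩ := h'
  exact ⟨mul_mem ha hb, map_mul P.ρ ⟨a, ha⟩ ⟨b, hb⟩⟩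

theorem rd_neg (h : P.Rd a c) : P.Rd (-a) (-c) := by
  obtain ⟨ha, rfl⟩ := h
  exact ⟨neg_mem ha, map_neg P.ρ ⟨a, ha⟩⟩

theorem rd_sub (h : P.Rd a c) (h' : P.Rd b d) : P.Rd (a - b) (c - d) := by
  rw [sub_eq_add_neg, sub_eq_add_neg]; exact rd_add h (rd_neg h')

theorem rd_le (h : P.Rd a c) : P.O.valuation a ≤ 1 := (P.O.valuation_le_one_iff a).2 h.1

theorem rd_zero_iff : P.Rd a 0 ↔ P.O.valuation a < 1 :=
  ⟨fun ⟨h, e⟩ => (P.ker ⟨a, h⟩).1 e, fun h =>
    ⟨(P.O.valuation_le_one_iff a).1 h.le, (P.ker ⟨a, _⟩).2 h⟩⟩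

theorem rd_eq_zero (h : P.Rd a c) : c = 0 ↔ P.O.valuation a < 1 :=
  ⟨fun e => rd_zero_iff.1 (e ▸ h), fun e => rd_unique h (rd_zero_iff.2 e)⟩

theorem rd_ne_zero (h : P.Rd a c) : c ≠ 0 ↔ P.O.valuation a = 1 := by
  rw [Ne, rd_eq_zero h, not_lt]
  exact ⟨fun e => le_antisymm (rd_le h) e, fun e => e.ge⟩

end KP

variable (B : BCK k K Ω)

theorem act_inv (τ : Ω ≃ₐ[k] Ω) : B.act τ⁻¹ = (B.act τ)⁻¹ := map_inv _ _

theorem act_val (τ : Ω ≃ₐ[k] Ω) (w : Place Ω B.F) (Φ : B.F) :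
    (B.act τ • w).val ((B.act τ).1 Φ) = w.val Φ := smul_val_apply _ _ _

theorem act_ord (τ : Ω ≃ₐ[k] Ω) (w : Place Ω B.F) (Φ : B.F) :
    (B.act τ • w).ord ((B.act τ).1 Φ) = w.ord Φ := smul_ord_apply _ _ _

theorem act_val_sub (τ : Ω ≃ₐ[k] Ω) (w : Place Ω B.F) (Φ : B.F) (a : Ω) :
    (B.act τ • w).val ((B.act τ).1 Φ - algebraMap Ω B.F (τ a)) =
      w.val (Φ - algebraMap Ω B.F a) := by
  rw [← act_val B τ w, map_sub (B.act τ).1, B.act_Ω]

theorem act_ev (τ : Ω ≃ₐ[k] Ω) (w : Place Ω B.F) (Φ : B.F) :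
    (B.act τ • w).ev ((B.act τ).1 Φ) = τ (w.ev Φ) := by
  by_cases hc : ∃ c : Ω, w.val (Φ - algebraMap Ω B.F c) < 1
  · obtain ⟨c, hc⟩ := hc
    rw [w.ev_eq hc, Place.ev_eq _ ((act_val_sub B τ w Φ c).symm ▸ hc)]
  · rw [Place.ev, Place.ev, dif_neg hc, dif_neg, map_zero]
    rintro ⟨c, h⟩
    refine hc ⟨τ.symm c, ?_⟩
    rwa [← act_val_sub B τ, τ.apply_symm_apply]

theorem pl_ev (η : K →ₐ[k] Ω) (h : K) : (B.pl η).ev (algebraMap K B.F h) = η h :=
  Place.ev_eq _ (B.pl_val η h)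

theorem pl_triv (η : K →ₐ[k] Ω) {h : K} (h0 : h ≠ 0) : (B.pl η).val (algebraMap K B.F h) = 1 :=
  (B.pl η).eq_one_of_sub (B.pl_val η h) (by simpa using h0)

theorem pl_le (η : K →ₐ[k] Ω) (h : K) : (B.pl η).val (algebraMap K B.F h) ≤ 1 :=
  (B.pl η).le_of_sub_lt (B.pl_val η h)

theorem pl_ord (η : K →ₐ[k] Ω) (h : K) : (B.pl η).ord (algebraMap K B.F h) = 0 := by
  by_cases h0 : h = 0
  · simp [h0]
  · exact Place.ord_of_val_one _ (pl_triv B η h0)

theorem pl_inj : Function.Injective B.pl := fun η η' e => by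
  ext h
  rw [← pl_ev B η, e, pl_ev]

theorem pl_ne_io (η : K →ₐ[k] Ω) (z : Place k K) : B.pl η ≠ B.io z := fun e => by
  obtain ⟨π, hπ⟩ := z.exists_unif
  have := pl_triv B η (z.unif_ne hπ)
  rw [e, B.io_val, hπ, exp_eq_one] at this
  omega

theorem io_ord (z : Place k K) (h : K) : (B.io z).ord (algebraMap K B.F h) = z.ord h := by
  rw [Place.ord, B.io_val, Place.ord]

theorem const_eq (c : k) :
    algebraMap Ω B.F (algebraMap k Ω c) = algebraMap K B.F (algebraMap k K c) := by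
  rw [← IsScalarTower.algebraMap_apply, ← IsScalarTower.algebraMap_apply]

theorem io_val_sub (z : Place k K) (h : K) (c : k) :
    (B.io z).val (algebraMap K B.F h - algebraMap Ω B.F (algebraMap k Ω c)) =
      z.val (h - algebraMap k K c) := by
  rw [const_eq, ← map_sub, B.io_val]

theorem act_pl (τ : Ω ≃ₐ[k] Ω) (η : K →ₐ[k] Ω) :
    B.act τ • B.pl η = B.pl ((τ : Ω →ₐ[k] Ω).comp η) := by
  refine (B.uniq _ _ fun h a ha => ?_).symm
  have h1 : a = τ (η h) := Place.const_eq _ ha (B.pl_val _ h)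
  have := act_val_sub B τ (B.pl η) (algebraMap K B.F h) (η h)
  rw [B.act_K] at this
  rw [h1, this]
  exact B.pl_val η h

theorem rp_pl_iff {P : KP k Ω} (R : Red B.toBCD P) (η : K →ₐ[k] Ω) (h : K) :
    (R.rp (B.pl η)).val h ≤ 1 ↔ η h ∈ P.O := by
  rw [R.rp_iff, pl_ev]
  exact and_iff_right (pl_le B η h)

theorem rp_pl {P : KP k Ω} (R : Red B.toBCD P) (η : K →ₐ[k] Ω) (z : Place k K)
    (hz : ∀ h, z.val h ≤ 1 → η h ∈ P.O) : R.rp (B.pl η) = z :=
  (z.eq_of_le _ fun h hh => (rp_pl_iff B R η h).2 (hz h hh)).symm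

theorem rp_pl_ev {P : KP k Ω} (R : Red B.toBCD P) (η : K →ₐ[k] Ω) {h : K} (hh : η h ∈ P.O) :
    P.Rd (η h) ((R.rp (B.pl η)).ev h) := by
  have := R.rp_ev _ h ((rp_pl_iff B R η h).2 hh)
  rwa [pl_ev] at this

theorem actD_io' (τ : Ω ≃ₐ[k] Ω) (hio : ∀ z, B.act τ • B.io z = B.io z) (D : Dv k K) :
    actD (B.act τ) (D.mapDomain B.io) = D.mapDomain B.io := by
  rw [actD, ← mapDomain_comp]
  exact mapDomain_congr fun z _ => hio z

theorem mapDomain_io_apply (D : Dv k K) (z : Place k K) : D.mapDomain B.io (B.io z) = D z :=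
  mapDomain_apply B.io_inj D z

theorem mapDomain_io_pl (D : Dv k K) (η : K →ₐ[k] Ω) : D.mapDomain B.io (B.pl η) = 0 :=
  mapDomain_of_notMem_range D _ fun ⟨z, hz⟩ => pl_ne_io B η z hz.symm

theorem off_io {f : K} {D : Dv k K} (h : Off f D) :
    Off (algebraMap K B.F f) (D.mapDomain B.io) := fun w hw => by
  by_cases hr : w ∈ Set.range B.io
  · obtain ⟨z, rfl⟩ := hr
    rw [mapDomain_io_apply] at hw
    rw [B.io_val, h z hw]
  · exact absurd (mapDomain_of_notMem_range D _ hr) hw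

theorem evD_mapDomain_io (Φ : B.F) (D : Dv k K) :
    evD Φ (D.mapDomain B.io) = D.prod fun z n => (B.io z).ev Φ ^ n :=
  prod_mapDomain_index_inj B.io_inj

variable [IsAlgClosed k]

theorem io_ev (hK : IsFF k K) (z : Place k K) (h : K) :
    (B.io z).ev (algebraMap K B.F h) = algebraMap k Ω (z.ev h) := by
  by_cases hh : z.val h ≤ 1
  · exact Place.ev_eq _ (by rw [io_val_sub]; exact ev_spec hK z hh)
  · rw [Place.ev, Place.ev, dif_neg, dif_neg, map_zero]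
    · rintro ⟨c, hc⟩
      exact hh (z.le_of_sub_lt hc)
    · rintro ⟨c, hc⟩
      exact hh (B.io_val z h ▸ (B.io z).le_of_sub_lt hc)

theorem evD_io (hK : IsFF k K) (f : K) (D : Dv k K) :
    evD (algebraMap K B.F f) (D.mapDomain B.io) = algebraMap k Ω (evD f D) := by
  rw [evD_mapDomain_io, evD, Finsupp.prod, Finsupp.prod, map_prod]
  exact Finset.prod_congr rfl fun z _ => by rw [io_ev B hK, map_zpow₀]

theorem act_io (hK : IsFF k K) (τ : Ω ≃ₐ[k] Ω) (z : Place k K) : B.act τ • B.io z = B.io z := by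
  refine (B.uniq _ _ fun h a ha => ?_).symm
  have h1 : a = algebraMap k Ω (z.ev h) := by rw [← io_ev B hK, Place.ev_eq _ ha]
  have := act_val_sub B τ (B.io z) (algebraMap K B.F h) a
  rw [B.act_K, h1, τ.commutes, ← h1] at this
  rwa [this]

theorem actD_io (hK : IsFF k K) (τ : Ω ≃ₐ[k] Ω) (D : Dv k K) :
    actD (B.act τ) (D.mapDomain B.io) = D.mapDomain B.io := actD_io' B τ (act_io B hK τ) D

theorem rp_io (hK : IsFF k K) {P : KP k Ω} (R : Red B.toBCD P) (z : Place k K) :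
    R.rp (B.io z) = z :=
  (z.eq_of_le _ fun h hh => (R.rp_iff _ h).2
    ⟨by rwa [B.io_val], by rw [io_ev B hK]; exact P.mem _⟩).symm

theorem rp_mapDomain_io (hK : IsFF k K) {P : KP k Ω} (R : Red B.toBCD P) (D : Dv k K) :
    (D.mapDomain B.io).mapDomain R.rp = D := by
  rw [← mapDomain_comp, show R.rp ∘ B.io = id from funext (rp_io B hK R), mapDomain_id]

omit [IsAlgClosed k] in
theorem evD_act (τ : Ω ≃ₐ[k] Ω) (Φ : B.F) (D : Dv Ω B.F) :
    evD ((B.act τ).1 Φ) (actD (B.act τ) D) = τ (evD Φ D) := by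
  rw [evD, actD, prod_mapDomain_index_inj (MulAction.injective _), evD, Finsupp.prod,
    Finsupp.prod, map_prod]
  exact Finset.prod_congr rfl fun w _ => by rw [act_ev, map_zpow₀]

variable [Algebra K Ω] [IsScalarTower k K Ω]

omit [IsAlgClosed k] in
theorem eta_apply (h : K) : eta k K Ω h = algebraMap K Ω h := rfl

omit [IsAlgClosed k] in
/-- Automorphisms over `K` fix the places of the embeddings that factor through `K`. -/
theorem act_pl_eta (τ : Ω ≃ₐ[K] Ω) (φ : K →ₐ[k] K) :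
    B.act (τ.restrictScalars k) • B.pl ((eta k K Ω).comp φ) = B.pl ((eta k K Ω).comp φ) := by
  rw [act_pl]; congr 1; ext h; exact τ.commutes (φ h)

omit [IsAlgClosed k] in
theorem act_eta (τ : Ω ≃ₐ[K] Ω) :
    B.act (τ.restrictScalars k) • B.pl (eta k K Ω) = B.pl (eta k K Ω) := by
  rw [act_pl]; congr 1; ext h; exact τ.commutes h

variable {B} {l p : ℕ} [Fact l.Prime] {ζ : k}
  {e : VV k K l →ₗ[ZMod l] VV k K l →ₗ[ZMod l] ZMod l} {x₀ : Place k K}

/-- The cocycle vanishes on automorphisms that fix the Kummer cover. -/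
theorem Coc.zero_of_fix [IsAlgClosed Ω] (hK : IsFF k K) (hζ : IsPrimitiveRoot ζ l)
    (C : Coc B ζ e x₀) {L : IntermediateField K Ω} (hL : IsCov k l p L) (τ : Ω ≃ₐ[K] Ω)
    (hτ : ∀ x ∈ L, τ x = x) : C.c τ = 0 := by
  refine C.nd _ fun b => ?_
  obtain ⟨f, D, hf⟩ := exists_rep hK b
  obtain ⟨r, hr⟩ := IsAlgClosed.exists_pow_nat_eq (algebraMap K Ω f) (Fact.out : l.Prime).pos
  have h1 := C.kum τ f D b r hf hr
  have h0 : r ≠ 0 := fun e0 => by
    rw [e0, zero_pow (Fact.out : l.Prime).ne_zero] at hr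
    exact f.ne_zero ((algebraMap K Ω).injective (by rw [← hr, map_zero]))
  rw [hτ r (hL.mem f r f.ne_zero (hf.dvd hK) hr)] at h1
  refine zeta_inj hζ ((algebraMap k Ω).injective ?_)
  rw [zeta_zero, map_one]
  exact (mul_eq_right₀ h0).1 h1.symm

/-- The cocycle is additive. -/
theorem Coc.c_mul [IsAlgClosed Ω] (hK : IsFF k K) (hζ : IsPrimitiveRoot ζ l)
    (C : Coc B ζ e x₀) (τ τ' : Ω ≃ₐ[K] Ω) : C.c (τ * τ') = C.c τ + C.c τ' := by
  rw [← sub_eq_zero]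
  refine C.nd _ fun b => ?_
  obtain ⟨f, D, hf⟩ := exists_rep hK b
  obtain ⟨r, hr⟩ := IsAlgClosed.exists_pow_nat_eq (algebraMap K Ω f) (Fact.out : l.Prime).pos
  have h0 : r ≠ 0 := fun e0 => by
    rw [e0, zero_pow (Fact.out : l.Prime).ne_zero] at hr
    exact f.ne_zero ((algebraMap K Ω).injective (by rw [← hr, map_zero]))
  have h1 := C.kum (τ * τ') f D b r hf hr
  rw [AlgEquiv.mul_apply, C.kum τ' f D b r hf hr, map_mul, ofAlg_const, C.kum τ f D b r hf hr,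
    ← mul_assoc, ← map_mul, ← zeta_add hζ.pow_eq_one] at h1
  have h2 := zeta_inj hζ ((algebraMap k Ω).injective (mul_right_cancel₀ h0 h1))
  simp only [map_sub, map_add, LinearMap.sub_apply, LinearMap.add_apply, ← h2]
  ring

end Pool.Agent.MP_cce4c9_lc.H7
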