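import Pool.Agent.MP_cce4c9_lc.H7.Base2

/-! Reformulations of some statements of the function field part. -/

set_option autoImplicit false

open WithZero Finsupp Module Polynomial
open scoped IntermediateField

namespace Pool.Agent.MP_cce4c9_lc.H7

open Pool.Agent.MP_cce4c9_lc.H87

variable {k K : Type} [Field k] [Field K] [Algebra k K]

theorem degree_sup (D : Dv k K) : (D ⊔ 0).degree = ∑ v ∈ D.support, max (D v) 0 := by
  rw [degree_apply]
  refine Finset.sum_subset (fun v hv => ?_) (fun v _ hv => Finsupp.notMem_support_iff.1 hv)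
  rw [Finsupp.mem_support_iff] at hv ⊢
  intro h
  exact hv (by simp [h])

theorem adjoin_sub_const (t : K) (c : k) : k⟮t - algebraMap k K c⟯ = k⟮t⟯ := by
  apply le_antisymm <;> rw [IntermediateField.adjoin_simple_le_iff]
  · exact sub_mem (IntermediateField.mem_adjoin_simple_self k t) (IntermediateField.algebraMap_mem _ c)
  · have := add_mem (IntermediateField.mem_adjoin_simple_self k (t - algebraMap k K c))
      (IntermediateField.algebraMap_mem _ c)
    rwa [sub_add_cancel] at this

section Rat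

variable [Algebra (RatFunc k) K] [IsScalarTower k (RatFunc k) K]

theorem rat_poly (p : k[X]) : algebraMap (RatFunc k) K (algebraMap k[X] (RatFunc k) p) =
    aeval (algebraMap (RatFunc k) K RatFunc.X) p := by
  have h : (IsScalarTower.toAlgHom k (RatFunc k) K).comp
      (IsScalarTower.toAlgHom k k[X] (RatFunc k)) = aeval (algebraMap (RatFunc k) K RatFunc.X) := by
    apply Polynomial.algHom_ext
    simp
  exact DFunLike.congr_fun h p

theorem rat_transc : Transcendental k (algebraMap (RatFunc k) K RatFunc.X) :=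
  (transcendental_algebraMap_iff (algebraMap (RatFunc k) K).injective).2 RatFunc.transcendental_X

theorem rat_finrank : finrank k⟮algebraMap (RatFunc k) K RatFunc.X⟯ K = finrank (RatFunc k) K := by
  refine (Algebra.finrank_eq_of_equiv_equiv
    (RatFunc.algEquivOfTranscendental _ (rat_transc (k := k) (K := K))).toRingEquiv
    (RingEquiv.refl K) ?_).symm
  ext u
  show (RatFunc.algEquivOfTranscendental _ (rat_transc (k := k) (K := K)) u).1 = algebraMap _ K u
  rw [RatFunc.algEquivOfTranscendental_apply, ← rat_poly, ← rat_poly, ← map_div₀,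
    RatFunc.num_div_denom]

theorem degr_of [IsAlgClosed k] [FiniteDimensional (RatFunc k) K] (hD : StmtDEG) :
    IsFF k K ∧ ∀ (c : k) (s : K), s = algebraMap (RatFunc k) K RatFunc.X - algebraMap k K c →
      ∑ v ∈ (dv k s).support, max (v.ord s) 0 = finrank (RatFunc k) K ∧
      ∀ v : Place k K, v.ord s < 0 ↔ 1 < v.val (algebraMap (RatFunc k) K RatFunc.X) := by
  have hK : IsFF k K := IsFF.of_rat
  refine ⟨hK, fun c s hs => ?_⟩
  have hn : s ∉ Set.range (algebraMap k K) := by
    rintro ⟨d, hd⟩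
    exact nonconst_of_transc (rat_transc (k := k) (K := K)) ⟨d + c, by rw [map_add, hd, hs]; ring⟩
  have h0 : s ≠ 0 := fun e => hn ⟨0, by simp [e]⟩
  refine ⟨?_, fun v => ?_⟩
  · have := (hD k K hK).1 s hn
    rw [degree_sup, hs, adjoin_sub_const, rat_finrank, ← hs] at this
    simpa only [dv_ap hK] using this
  · rw [← not_le, ← v.val_le_one (v.val_ne h0), ← not_le, not_iff_not, hs]
    refine ⟨fun h => ?_, fun h => v.val.map_sub_le h (v.const_le c)⟩
    have := v.val.map_add_le h (v.const_le c)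
    rwa [sub_add_cancel] at this

end Rat

variable [IsAlgClosed k]

theorem deg_of (hL : StmtLL) (hD : StmtDEG) (hK : IsFF k K) (h : K) :
    (Function.support fun v : Place k K => v.ord h).Finite ∧ (dv k h).degree = 0 ∧
      ((∀ v : Place k K, v.val h ≤ 1) → h ∈ Set.range (algebraMap k K)) :=
  ⟨fins hK h, (hD k K hK).2 h, fun hh => (hL k K hK).2.2.1 h fun v => by simpa using hh v⟩

theorem jet_of (hG : StmtGEN) (hK : IsFF k K) {g : ℕ} (hg : IsGenus k K g) {D E : Dv k K}
    (hE : 0 ≤ E) (hD : ∀ v, E v ≠ 0 → D v = 0) (hd : 2 * (g : ℤ) ≤ D.degree - E.degree) :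
    ∃ y ∈ LL D, ∀ v, E v ≠ 0 → v.val (y - 1) ≤ exp (-E v) := by
  obtain ⟨y, hy, h⟩ := (hG k K hK).2 g hg D E hE hd 1 fun v hv => by simp [hD v hv]
  exact ⟨y, hy, fun v hv => by simpa [hD v hv] using h v hv⟩

theorem chev_of (hC : StmtCHEV) {Ω R : Type} [Field Ω] [Algebra k Ω] [CommRing R] [Algebra k R]
    (i : R →ₐ[k] Ω) (φ : R →ₐ[k] k) (h : ∀ r, i r = 0 → φ r = 0) :
    ∃ P : KP k Ω, ∀ r, P.Rd (i r) (φ r) := by
  obtain ⟨P, hP⟩ := hC k Ω (i.toRingHom.prod φ.toRingHom).range
    (fun c => ⟨algebraMap k R c, Prod.ext (i.commutes c) (φ.commutes c)⟩) (by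
      rintro c ⟨r, hr⟩
      exact (congrArg Prod.snd hr).symm.trans (h r (congrArg Prod.fst hr)))
  exact ⟨P, fun r => hP _ ⟨r, rfl⟩⟩

end Pool.Agent.MP_cce4c9_lc.H7
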