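import Pool.Agent.MP_cce4c9_lc.H7.SeqA

/-! The exact sequence of the generalized Jacobian. -/

set_option autoImplicit false

open WithZero Polynomial Finset

namespace Pool.Agent.MP_cce4c9_lc.H7

open Pool.Agent.MP_cce4c9_lc.H87 Cv

variable {k : Type} [Field k] {d m : ℕ} {f : k[X]} {C : Cv k d m f} {l : ℕ} [NeZero l] {ζ : k}

omit [NeZero l] in
theorem exists_E (hH : C.HA) : ∃ E : (PP f m → ZMod l) →ₗ[ZMod l] (SS C → ZMod l), ∀ γ,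
    (∀ v : SS C, 1 < v.1.val C.t → E γ v = 0) ∧ ∀ (v : SS C) a, Ov C v.1 a → E γ v = γ a := by
  obtain ⟨E, hE⟩ := exists_lin (l := l) (fun (γ : PP f m → ZMod l) (g : SS C → ZMod l) =>
      (∀ v : SS C, 1 < v.1.val C.t → g v = 0) ∧ ∀ (v : SS C) a, Ov C v.1 a → g v = γ a)
    (fun γ => exists_ext hH γ fun _ => 0)
    (fun γ g g' h h' => ss_ext hH (fun v hv => (h.1 v hv).trans (h'.1 v hv).symm)
      fun v a ha => (h.2 v a ha).trans (h'.2 v a ha).symm)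
    fun γ γ' g g' h h' => ⟨fun v hv => by simp [h.1 v hv, h'.1 v hv],
      fun v a ha => by simp [h.2 v a ha, h'.2 v a ha]⟩
  refine ⟨E, fun γ => ?_⟩
  obtain ⟨g, hg⟩ := exists_ext hH γ fun _ => 0
  rwa [hE γ g hg]

theorem root_nr (hQ : C.QA) (hζ : IsPrimitiveRoot ζ l) (ε : rootsOfUnity l C.Q) :
    ∃ g : SS C → ZMod l, Nr C ζ ε.1 g :=
  nr_of_pow hQ hζ fun v => by rw [show ε.1 ^ l = 1 from ε.2]; simp

theorem exists_lg (hQ : C.QA) (hζ : IsPrimitiveRoot ζ l) :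
    ∃ lg : C.M0 l →ₗ[ZMod l] (SS C → ZMod l), ∀ ε, Nr C ζ ε.1 (lg (Hl.mk l ε)) := by
  obtain ⟨lg, h⟩ := exists_lin (l := l) (fun (a : C.M0 l) (g : SS C → ZMod l) =>
      ∃ ε, Hl.mk l ε = a ∧ Nr C ζ ε.1 g)
    (fun a => by
      obtain ⟨ε, rfl⟩ := Hl.mk_surj l a
      exact (root_nr hQ hζ ε).imp fun g hg => ⟨ε, rfl, hg⟩)
    (by
      rintro a g g' ⟨ε, rfl, h⟩ ⟨ε', e, h'⟩
      obtain ⟨c, rfl⟩ := (Hl.mk_eq_mk l _ _).1 e
      rw [show c ^ l = 1 from Subtype.ext c.2, mul_one] at h'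
      exact h.unique hζ h')
    (by
      rintro _ _ g g' ⟨ε, rfl, h⟩ ⟨ε', rfl, h'⟩
      exact ⟨ε * ε', rfl, h.mul hζ.pow_eq_one h'⟩)
  refine ⟨lg, fun ε => ?_⟩
  obtain ⟨g, hg⟩ := root_nr hQ hζ ε
  rwa [h _ g ⟨ε, rfl, hg⟩]

theorem exists_kappa (hQ : C.QA) (hH : C.HA) (hP : C.PL) (hζ : ζ ^ l = 1) :
    ∃ κ : (SS C → ZMod l) →ₗ[ZMod l] C.MM l, ∀ g y (u : C.HH), Nr C ζ y g → u.1 = y ^ l →
      (κ g).1 = Hl.mk l u := by
  have fn : ∀ (g : SS C → ZMod l) y y' (u u' : C.HH), Nr C ζ y g → u.1 = y ^ l → Nr C ζ y' g →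
      u'.1 = y' ^ l → Hl.mk l u = Hl.mk l u' := fun g y y' u u' h e h' e' => by
    have h1 := h.mul hζ (h'.inv hζ)
    rw [add_neg_cancel, nr_zero] at h1
    refine (Hl.mk_eq_mk l _ _).2 ⟨⟨_, 0, gg_of_one hH hP h1⟩, Subtype.ext ?_⟩
    show u.1 = u'.1 * (y * y'⁻¹) ^ l
    rw [e, e', ← mul_pow, mul_comm y', inv_mul_cancel_right]
  have tot : ∀ g : SS C → ZMod l, ∃ a : C.MM l, ∃ y, ∃ u : C.HH, Nr C ζ y g ∧ u.1 = y ^ l ∧
      a.1 = Hl.mk l u := fun g => by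
    obtain ⟨y, hy⟩ := exists_nr hQ hH hζ g
    have h0 := gg_of_one hH hP (hy.pow hζ)
    refine ⟨⟨Hl.mk l ⟨_, 0, h0⟩, mem_MM.2 ⟨_, rfl, ⟨0, by simpa using h0⟩, fun v => ?_⟩⟩, y, _,
      hy, rfl, rfl⟩
    show (l : ℤ) ∣ v.ord ((y ^ l : C.Qˣ) : C.Q)
    rw [Units.val_pow_eq_pow_val, v.ord_pow]
    exact dvd_mul_right _ _
  obtain ⟨κ, h⟩ := exists_lin (l := l) (fun (g : SS C → ZMod l) (a : C.MM l) =>
      ∃ y, ∃ u : C.HH, Nr C ζ y g ∧ u.1 = y ^ l ∧ a.1 = Hl.mk l u) tot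
    (by
      rintro g a a' ⟨y, u, h1, h2, h3⟩ ⟨y', u', h1', h2', h3'⟩
      exact Subtype.ext (h3.trans ((fn g y y' u u' h1 h2 h1' h2').trans h3'.symm)))
    (by
      rintro g g' a a' ⟨y, u, h1, h2, h3⟩ ⟨y', u', h1', h2', h3'⟩
      exact ⟨y * y', u * u', h1.mul hζ h1', by rw [mul_pow, ← h2, ← h2']; rfl,
        by rw [Hl.mk_mul, ← h3, ← h3']; rfl⟩)
  refine ⟨κ, fun g y u hy e => ?_⟩
  obtain ⟨a, y', u', h1, h2, h3⟩ := tot g
  rw [h g a ⟨y', u', h1, h2, h3⟩, h3]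
  exact fn g y' y u' u h1 h2 hy e

theorem exists_pi : ∃ π : C.MM l →ₗ[ZMod l] VV k C.Q l, ∀ (a : C.MM l) (u : C.HH),
    a.1 = Hl.mk l u → (π a).1 = Hl.mk l u.1 := by
  have fn : ∀ u u' : C.HH, Hl.mk l u = Hl.mk l u' → Hl.mk l u.1 = Hl.mk l u'.1 := fun u u' e => by
    obtain ⟨c, rfl⟩ := (Hl.mk_eq_mk l _ _).1 e
    exact (Hl.mk_eq_mk l _ _).2 ⟨c.1, rfl⟩
  have tot : ∀ a : C.MM l, ∃ b : VV k C.Q l, ∃ u : C.HH, a.1 = Hl.mk l u ∧ b.1 = Hl.mk l u.1 :=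
    fun a => by
      obtain ⟨u, hu, -, h⟩ := mem_MM.1 a.2
      exact ⟨⟨_, mem_VV.2 ⟨u.1, rfl, h⟩⟩, u, hu.symm, rfl⟩
  obtain ⟨π, h⟩ := exists_lin (l := l) (fun (a : C.MM l) (b : VV k C.Q l) =>
      ∃ u : C.HH, a.1 = Hl.mk l u ∧ b.1 = Hl.mk l u.1) tot
    (by
      rintro a b b' ⟨u, h1, h2⟩ ⟨u', h1', h2'⟩
      exact Subtype.ext (h2.trans ((fn u u' (h1.symm.trans h1')).trans h2'.symm)))
    (by
      rintro a a' b b' ⟨u, h1, h2⟩ ⟨u', h1', h2'⟩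
      exact ⟨u * u', by rw [Hl.mk_mul, ← h1, ← h1']; rfl,
        by rw [Subgroup.coe_mul, Hl.mk_mul, ← h2, ← h2']; rfl⟩)
  refine ⟨π, fun a u e => ?_⟩
  obtain ⟨b, u', h1, h2⟩ := tot a
  rw [h a b ⟨u', h1, h2⟩, h2]
  exact fn _ _ (h1.symm.trans e)

theorem pi_surj [IsAlgClosed k] (hQ : C.QA) (hH : C.HA) (hP : C.PL) (b : VV k C.Q l) :
    ∃ (a : C.MM l) (u : C.HH), a.1 = Hl.mk l u ∧ b.1 = Hl.mk l u.1 := by
  obtain ⟨φ, hφ, hd⟩ := mem_VV.1 b.2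
  have key : ∀ v : SS C, ∃ a : C.Q, v.1.val a ≠ 0 ∧ v.1.val (φ * a ^ l) = 1 ∧
      v.1.val (φ * a ^ l - 1) < 1 := fun v => by
    obtain ⟨n, hn⟩ := hd v.1
    obtain ⟨w, hw⟩ := v.1.surj (exp n)
    have h1 : v.1.val (φ * w ^ l) = 1 := by
      rw [map_mul, map_pow, hw, v.1.val_eq (v.1.val_unit_ne φ), hn, ← exp_nsmul, ← exp_add]
      simp
    have h2 := (hQ.res v.1).ev_ne_zero h1
    obtain ⟨c, hc⟩ := IsAlgClosed.exists_pow_nat_eq (v.1.ev (φ * w ^ l))⁻¹ (NeZero.pos l)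
    have hc0 : c ≠ 0 := fun e => inv_ne_zero h2 (by rw [← hc, e, zero_pow (NeZero.ne l)])
    have h3 := near_mul (C := C) ((hQ.res v.1).ev_spec h1.le)
      (show v.1.val (algebraMap k C.Q (c ^ l) - algebraMap k C.Q (c ^ l)) < 1 by simp)
    rw [hc, mul_inv_cancel₀ h2, ← hc, map_pow, mul_assoc, ← mul_pow] at h3
    refine ⟨w * algebraMap k C.Q c, ?_, near_one one_ne_zero h3, by simpa using h3⟩
    rw [map_mul, hw, v.1.triv c hc0, mul_one]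
    exact exp_ne_zero
  choose a ha0 ha1 ha2 using key
  obtain ⟨y, hy⟩ := apxS hQ hH a ha0
  have h0 : C.GG 0 (φ * y ^ l) := gg_of_one hH hP fun v => by
    have h1 := mul_lt_mul_of_pos_left (val_pow_sub (hy v) l) (zero_lt_iff.2 (v.1.val_unit_ne φ))
    rw [← map_mul, ← map_mul, ha1] at h1
    have h2 := v.1.val.map_add_lt h1 (ha2 v)
    rw [mul_sub, sub_add_sub_cancel] at h2
    simpa using h2
  refine ⟨⟨Hl.mk l ⟨_, 0, h0⟩, mem_MM.2 ⟨_, rfl, ⟨0, by simpa using h0⟩, fun v => ?_⟩⟩, _, rfl,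
    hφ.symm.trans ((Hl.mk_eq_mk l _ _).2 ⟨y, rfl⟩).symm⟩
  show (l : ℤ) ∣ v.ord ((φ * y ^ l : C.Qˣ) : C.Q)
  rw [Units.val_mul, v.ord_mul (v.val_unit_ne _) (v.val_unit_ne _), Units.val_pow_eq_pow_val,
    v.ord_pow]
  exact (hd v).add (dvd_mul_right _ _)

theorem ker_pi [IsAlgClosed k] (hQ : C.QA) (hH : C.HA) (hP : C.PL) (hζ : IsPrimitiveRoot ζ l)
    {n : ℤ} {y : C.Qˣ} (h : C.GG (l * n) (y ^ l)) :
    ∃ b : C.Qˣ, C.GG n b ∧ ∃ g : SS C → ZMod l, Nr C ζ (y * b⁻¹) g := by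
  choose c hc0 hc using ((gg_iff hH hP).1 h).2
  choose c' hc' using fun a => IsAlgClosed.exists_pow_nat_eq (c a) (NeZero.pos l)
  have hc1 : ∀ a, c' a ≠ 0 := fun a e => hc0 a (by rw [← hc', e, zero_pow (NeZero.ne l)])
  obtain ⟨b, hb, hb'⟩ := exists_gg hQ hH hP n c' hc1
  refine ⟨b, hb, nr_of_pow hQ hζ fun v => v.2.elim (fun hv => ?_) fun hv => ?_⟩
  · obtain ⟨a, ha⟩ := exists_ov hH hv
    have := near_mul (C := C) (hc a _ ha) (near_pow (near_inv (hc1 a) (hb' _ a ha)) l)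
    rw [inv_pow, hc', mul_inv_cancel₀ (hc0 a)] at this
    simpa [mul_pow] using this
  · have := (h.mul (hb.inv.pow l)).1 v.1 hv
    simpa [mul_pow] using this

theorem seq (hT : StmtTRX) : StmtSEQ := by
  intro k _ _ l p d m _ _ _ f C hlp hQ hH hP hD hV hR
  classical
  have hl : l.Prime := Fact.out
  have hp : p.Prime := Fact.out
  have hlk : (l : k) ≠ 0 := fun h =>
    hlp ((Nat.prime_dvd_prime_iff_eq hp hl).1 ((CharP.cast_eq_zero_iff k p l).1 h)).symm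
  have : NeZero (l : k) := ⟨hlk⟩
  obtain ⟨ζ, hζ⟩ := HasEnoughRootsOfUnity.exists_primitiveRoot k l
  have hζ1 := hζ.pow_eq_one
  have := finite_SS hH
  have := finite_PP hH hP
  have : Finite (C.M0 l) := Finite.of_surjective _ (Hl.mk_surj l)
  have : Module.Finite (ZMod l) (C.M0 l) := Module.Finite.of_finite
  obtain ⟨E, hE⟩ := exists_E (l := l) hH
  obtain ⟨lg, hlg⟩ := exists_lg hQ hζ
  obtain ⟨κ, hκ⟩ := exists_kappa hQ hH hP hζ1
  obtain ⟨π, hπ⟩ := exists_pi (C := C) (l := l)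
  have hEb : ∀ γ, ∃ b, C.GG 0 b ∧ Nr C ζ b (E γ) := fun γ => by
    obtain ⟨b, hb⟩ := exists_nr hQ hH hζ1 (E γ)
    refine ⟨b, (gg_iff hH hP).2 ⟨fun v hv => ?_, fun a => ⟨_, zeta_ne hζ1 (γ a).val, fun v hv => ?_⟩⟩,
      hb⟩
    · simpa [(hE γ).1 ⟨v, Or.inr hv⟩ hv] using hb ⟨v, Or.inr hv⟩
    · have := hb ⟨v, Or.inl (hv.bad hH)⟩
      rwa [(hE γ).2 _ a hv] at this
  obtain ⟨hM, htr⟩ := hT (ZMod l) _ _ _ _ (E.coprod lg) κ π
    (by
      rw [injective_iff_map_eq_zero]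
      rintro ⟨γ, a⟩ h
      obtain ⟨ε, rfl⟩ := Hl.mk_surj l a
      rw [LinearMap.coprod_apply] at h
      have h1 : ε = 1 := Subtype.ext (Units.ext (root_eq_one hQ hlk
        ((mem_rootsOfUnity' _ _).1 ε.2) fun v hv => by
          have h2 := congrFun h ⟨v, Or.inr hv⟩
          rw [Pi.add_apply, (hE γ).1 _ hv, zero_add] at h2
          simpa [h2] using hlg ε ⟨v, Or.inr hv⟩))
      rw [h1, Hl.mk_one, map_zero, add_zero] at h
      refine Prod.ext (funext fun a => ?_) (by rw [h1]; rfl)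
      obtain ⟨v, hv⟩ := exists_place hP a
      exact ((hE γ).2 ⟨v, Or.inl (hv.bad hH)⟩ a hv).symm.trans (congrFun h _))
    (fun g => by
      constructor
      · intro h
        obtain ⟨y, hy⟩ := exists_nr hQ hH hζ1 g
        have h0 := gg_of_one hH hP (hy.pow hζ1)
        have h1 := hκ g y ⟨_, 0, h0⟩ hy rfl
        rw [h] at h1
        obtain ⟨⟨b, n, hb⟩, e⟩ := (Hl.mk_eq_zero l _).1 h1.symm
        have e' : b ^ l = y ^ l := congrArg Subtype.val e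
        have hn : n = 0 := (mul_eq_zero.1 (hD.uniq _ _ _ (hb.pow l) (e' ▸ h0))).resolve_left
          (Int.natCast_ne_zero.2 hl.ne_zero)
        subst hn
        choose c hc0 hc using ((gg_iff hH hP).1 hb).2
        choose γ hγ using fun a => zeta_surj hζ (x := c a) (by
          obtain ⟨v, hv⟩ := exists_place hP a
          refine v.const_eq (near_pow (hc a v hv) l) ?_
          rw [← Units.val_pow_eq_pow_val, e', map_one]
          exact hy.pow hζ1 ⟨v, Or.inl (hv.bad hH)⟩)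
        have hb1 : Nr C ζ b (E γ) := fun v => v.2.elim
          (fun hv => (exists_ov hH hv).elim fun a ha => by
            rw [(hE γ).2 v a ha, ← hγ]; exact hc a _ ha)
          fun hv => by simpa [(hE γ).1 v hv] using hb.1 v.1 hv
        have h2 := hb1.mul hζ1 (hlg ⟨y * b⁻¹, by
          rw [mem_rootsOfUnity, mul_pow, inv_pow, e', mul_inv_cancel]⟩)
        rw [mul_comm b, inv_mul_cancel_right] at h2
        exact ⟨(γ, _), h2.unique hζ hy⟩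
      · rintro ⟨⟨γ, a⟩, rfl⟩
        obtain ⟨ε, rfl⟩ := Hl.mk_surj l a
        obtain ⟨b, hb, hb1⟩ := hEb γ
        refine Subtype.ext ((hκ _ _ (⟨b, 0, hb⟩ ^ l) (hb1.mul hζ1 (hlg ε)) ?_).trans
          ((Hl.mk_eq_zero l _).2 ⟨_, rfl⟩))
        rw [mul_pow, show ε.1 ^ l = 1 from ε.2, mul_one]; rfl)
    (fun a => by
      obtain ⟨u, hu, ⟨n, hn⟩, -⟩ := mem_MM.1 a.2
      constructor
      · intro h
        have h1 := hπ a u hu.symm
        rw [h] at h1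
        obtain ⟨y, e⟩ := (Hl.mk_eq_zero l _).1 h1.symm
        obtain ⟨b, hb, g, hg⟩ := ker_pi hQ hH hP hζ (e.symm ▸ hn)
        refine ⟨g, Subtype.ext ((hκ g _ (u * (⟨b, n, hb⟩⁻¹) ^ l) hg ?_).trans
          (((Hl.mk_eq_mk l _ _).2 ⟨_, rfl⟩).trans hu))⟩
        rw [mul_pow, e]; rfl
      · rintro ⟨g, rfl⟩
        obtain ⟨y, hy⟩ := exists_nr hQ hH hζ1 g
        exact Subtype.ext ((hπ _ _ (hκ g y ⟨_, 0, gg_of_one hH hP (hy.pow hζ1)⟩ hy rfl)).trans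
          ((Hl.mk_eq_zero l _).2 ⟨y, rfl⟩)))
    (fun b => by
      obtain ⟨a, u, h1, h2⟩ := pi_surj hQ hH hP b
      exact ⟨a, Subtype.ext ((hπ a u h1).trans h2.symm)⟩)
  refine ⟨hM, fun a σ hσ => ?_⟩
  generalize p ^ a = q at hσ
  obtain ⟨fr, hfr, hfr'⟩ := exists_fr σ hH hP hσ
  have h1 := htr ((LinearMap.funLeft (ZMod l) (ZMod l) fr).prodMap ((q : ZMod l) • act0 l σ⁻¹))
    (LinearMap.funLeft (ZMod l) (ZMod l) (sS σ)) ((q : ZMod l) • actM l σ⁻¹)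
    ((q : ZMod l) • actV l σ.1⁻¹)
    (LinearMap.ext fun ⟨γ, a⟩ => by
      obtain ⟨ε, rfl⟩ := Hl.mk_surj l a
      show E (γ ∘ fr) + lg ((q : ZMod l) • act0 l σ⁻¹ (Hl.mk l ε)) = E γ ∘ sS σ + lg _ ∘ sS σ
      congr 1
      · exact ss_ext hH (fun v hv => ((hE _).1 v hv).trans
          ((hE γ).1 (sS σ v) (by rwa [← aut_t σ] at hv)).symm)
          fun v a ha => ((hE _).2 v a ha).trans ((hE γ).2 (sS σ v) _ (hfr' _ _ ha)).symm
      · rw [Nat.cast_smul_eq_nsmul]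
        exact (hlg (restrictRootsOfUnity σ⁻¹.1.1 l ε ^ q)).unique hζ ((hlg ε).frob hσ))
    (LinearMap.ext fun g => Subtype.ext (by
      obtain ⟨y, hy⟩ := exists_nr hQ hH hζ1 g
      have h0 := gg_of_one hH hP (hy.pow hζ1)
      show (κ (g ∘ sS σ)).1 = (q : ZMod l) • Hl.map l (actG σ⁻¹) (κ g).1
      rw [hκ g y ⟨_, 0, h0⟩ hy rfl, Nat.cast_smul_eq_nsmul, Hl.map_mk, ← Hl.mk_pow]
      refine hκ _ _ _ (hy.frob hσ) ?_
      rw [← pow_mul, mul_comm, pow_mul, ← map_pow (actU σ⁻¹) y l]; rfl))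
    (LinearMap.ext fun a => Subtype.ext (by
      obtain ⟨u, hu⟩ := Hl.mk_surj l a.1
      show (π ((q : ZMod l) • actM l σ⁻¹ a)).1 = (q : ZMod l) • actH l σ.1⁻¹ (π a).1
      rw [map_smul, hπ a u hu.symm, Submodule.coe_smul, hπ (actM l σ⁻¹ a) (actG σ⁻¹ u) (by
        show Hl.map l (actG σ⁻¹) a.1 = _
        rw [← hu]; rfl)]
      rfl))
  have h2 : badQ f m q = Subtype.val '' {a : PP f m | fr a = a} := by
    ext a
    constructor
    · rintro ⟨⟨h, h'⟩, h''⟩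
      exact ⟨⟨a, h, h''⟩, Subtype.ext (funext fun i => (hfr _ i).trans (h' i)), rfl⟩
    · rintro ⟨a, h, rfl⟩
      exact ⟨⟨a.2.1, fun i => by rw [← hfr, show fr a = a from h]⟩, a.2.2⟩
  have h3 : {v : Place k C.Q | (C.Bad v ∨ 1 < v.val C.t) ∧ σ.1 • v = v} =
      Subtype.val '' {v : SS C | sS σ v = v} := by
    ext v
    constructor
    · rintro ⟨h, h'⟩
      exact ⟨⟨v, h⟩, Subtype.ext h', rfl⟩
    · rintro ⟨v, h, rfl⟩
      exact ⟨v.2, congrArg Subtype.val h⟩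
  rw [h2, h3, Set.ncard_image_of_injective _ Subtype.val_injective,
    Set.ncard_image_of_injective _ Subtype.val_injective]
  simp only [LinearMap.trace_prodMap', trace_funLeft, map_smul, smul_eq_mul] at h1
  linear_combination h1

end Pool.Agent.MP_cce4c9_lc.H7
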