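import Pool.Agent.MP_cce4c9_lc.H87.SpecQ
import Pool.Agent.MP_cce4c9_lc.H7.Base

/-! Bad points, bad places and units with prescribed values. -/

set_option autoImplicit false

open WithZero Polynomial Finset

namespace Pool.Agent.MP_cce4c9_lc.H7

open Pool.Agent.MP_cce4c9_lc.H87 Cv

theorem exists_lin {l : ℕ} {A B : Type} [AddCommGroup A] [Module (ZMod l) A] [AddCommGroup B]
    [Module (ZMod l) B] (R : A → B → Prop) (tot : ∀ a, ∃ b, R a b)
    (fn : ∀ a b b', R a b → R a b' → b = b')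
    (add : ∀ a a' b b', R a b → R a' b' → R (a + a') (b + b')) :
    ∃ φ : A →ₗ[ZMod l] B, ∀ a b, R a b → φ a = b := by
  choose φ hφ using tot
  exact ⟨(AddMonoidHom.mk' φ fun a a' =>
    fn _ _ _ (hφ _) (add _ _ _ _ (hφ a) (hφ a'))).toZModLinearMap l,
    fun a b h => fn _ _ _ (hφ a) h⟩

theorem trace_funLeft (F : Type) [Field F] {S : Type} [Finite S] (π : S → S) :
    LinearMap.trace F (S → F) (LinearMap.funLeft F F π) = ({v | π v = v}.ncard : F) := by
  classical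
  have := Fintype.ofFinite S
  rw [LinearMap.trace_eq_matrix_trace F (Pi.basisFun F S), Matrix.trace,
    Set.ncard_eq_toFinset_card', Set.toFinset_ofPred, Finset.card_filter]
  simp [LinearMap.funLeft_apply, Pi.single_apply]

section Near

variable {k Q : Type} [Field k] [CommRing Q] [Algebra k Q] {v : Place k Q}

theorem val_pow_sub {y a : Q} (h : v.val (y - a) < v.val a) (n : ℕ) :
    v.val (y ^ n - a ^ n) < v.val (a ^ n) := by
  have ha : 0 < v.val a := zero_le.trans_lt h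
  have hy : v.val y = v.val a := by
    have := v.val.map_add_eq_of_lt_right h
    rwa [sub_add_cancel] at this
  induction n with
  | zero => simp
  | succ n ih =>
    rw [show y ^ (n + 1) - a ^ (n + 1) = y ^ n * (y - a) + (y ^ n - a ^ n) * a by ring, pow_succ,
      map_mul]
    refine v.val.map_add_lt ?_ ?_ <;> rw [map_mul]
    · rw [map_pow, hy, map_pow]
      exact mul_lt_mul_of_pos_left h (pow_pos ha n)
    · exact mul_lt_mul_of_pos_right ih ha

theorem near_pow {y : Q} {c : k} (h : v.val (y - algebraMap k Q c) < 1) (n : ℕ) :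
    v.val (y ^ n - algebraMap k Q (c ^ n)) < 1 := by
  induction n with
  | zero => simp
  | succ n ih =>
    rw [map_pow, show y ^ (n + 1) - algebraMap k Q c ^ (n + 1) = y ^ n * (y - algebraMap k Q c) +
      (y ^ n - algebraMap k Q c ^ n) * algebraMap k Q c by ring]
    refine v.val.map_add_lt ?_ ?_ <;> rw [map_mul]
    · rw [mul_comm, map_pow]
      exact mul_lt_one_of_lt_of_le h (pow_le_one' (v.le_of_sub_lt h) n)
    · exact mul_lt_one_of_lt_of_le (by simpa using ih) (v.const_le c)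

theorem near_root {l : ℕ} [NeZero l] {ζ : k} (hζ : IsPrimitiveRoot ζ l) (hv : v.Res) {y : Q}
    (h : v.val (y ^ l - 1) < 1) : ∃ g : ZMod l, v.val (y - algebraMap k Q (ζ ^ g.val)) < 1 := by
  have h1 : v.val (y ^ l) ≤ 1 := v.le_of_sub_lt (c := 1) (by simpa using h)
  rw [map_pow, pow_le_one_iff (NeZero.ne l)] at h1
  obtain ⟨c, hc⟩ := hv y h1
  obtain ⟨g, rfl⟩ := zeta_surj hζ (v.const_eq (near_pow hc l) (by simpa using h))
  exact ⟨g, hc⟩

theorem near_frob {q : ℕ} {σ : SA k Q} (hσ : IsFrob q σ) {y : Q} {c : k}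
    (h : (σ • v).val (y - algebraMap k Q c) < 1) :
    v.val ((σ⁻¹).1 y ^ q - algebraMap k Q c) < 1 := by
  rw [← smul_val_apply σ, map_sub, map_pow, hσ c]
  exact (σ.1.apply_symm_apply y).symm ▸ near_pow h q

end Near

variable {k : Type} [Field k] {d m : ℕ} {f : k[X]} (C : Cv k d m f)

/-- Bad or infinite places. -/
abbrev SS : Type := {v : Place k C.Q // C.Bad v ∨ 1 < v.val C.t}

/-- Bad points. -/
abbrev PP (f : k[X]) (m : ℕ) : Type :=
  {a : Fin m → k // (∀ i j, f.eval (a i) = f.eval (a j)) ∧ ∏ i, (derivative f).eval (a i) = 0}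

/-- The place lies over the bad point. -/
def Ov (v : Place k C.Q) (a : PP f m) : Prop :=
  ∀ i : Fin m, v.val (C.x i - algebraMap k C.Q (a.1 i)) < 1

variable {C}

theorem ov_iff {v : Place k C.Q} {a : PP f m} {b : ℕ → k} (h : ∀ i : Fin m, a.1 i = b i) :
    Ov C v a ↔ C.At v b :=
  ⟨fun H i hi => h ⟨i, hi⟩ ▸ H ⟨i, hi⟩, fun H i => h i ▸ H i i.2⟩

theorem ex_eq (a : Fin m → k) (i : Fin m) : a i = ex a i := by simp [ex]

theorem Ov.unique {v : Place k C.Q} {a b : PP f m} (h : Ov C v a) (h' : Ov C v b) : a = b :=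
  Subtype.ext (funext fun i => v.const_eq (h i) (h' i))

theorem bad_iff (hH : C.HA) {v : Place k C.Q} {a : ℕ → k} (h : C.At v a) :
    v.val C.dl < 1 ↔ ∏ i : Fin m, (derivative f).eval (a i) = 0 := by
  have h1 := (hH.atT v a h).2.2.1
  rw [Finset.prod_range] at h1
  exact ⟨fun e => v.const_eq h1 (by simpa using e), fun e => by simpa [e] using h1⟩

theorem exists_pt (hH : C.HA) {v : Place k C.Q} {b : ℕ → k} (h : C.At v b) (h1 : v.val C.dl < 1) :
    ∃ a : PP f m, ∀ i : Fin m, a.1 i = b i :=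
  ⟨⟨fun i => b i, fun i j => ((hH.atT v b h).2.2.2 i i.2).trans ((hH.atT v b h).2.2.2 j j.2).symm,
    (bad_iff hH h).1 h1⟩, fun _ => rfl⟩

theorem Ov.bad (hH : C.HA) {v : Place k C.Q} {a : PP f m} (h : Ov C v a) : C.Bad v := by
  have h1 := (ov_iff (ex_eq a.1)).1 h
  refine ⟨(hH.atT v _ h1).1, (bad_iff hH h1).2 ?_⟩
  simpa only [← ex_eq] using a.2.2

theorem exists_ov (hH : C.HA) {v : Place k C.Q} (h : C.Bad v) : ∃ a, Ov C v a := by
  obtain ⟨a, ha⟩ := exists_pt hH (hH.at_ev v h.1) h.2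
  exact ⟨a, (ov_iff ha).2 (hH.at_ev v h.1)⟩

theorem exists_place (hP : C.PL) (a : PP f m) : ∃ v, Ov C v a := by
  obtain ⟨v, hv⟩ := hP (ex a.1) fun i hi => by
    have := a.2.1 ⟨i, hi⟩ ⟨0, C.hm⟩
    rwa [ex_eq a.1 ⟨i, hi⟩, ex_eq a.1 ⟨0, C.hm⟩] at this
  exact ⟨v, (ov_iff (ex_eq a.1)).2 hv⟩

theorem gg_iff (hH : C.HA) (hP : C.PL) {n : ℤ} {u : C.Qˣ} : C.GG n u ↔
    (∀ v : Place k C.Q, 1 < v.val C.t → v.val (((u * C.su ^ n : C.Qˣ) : C.Q) - 1) < 1) ∧
    ∀ a : PP f m, ∃ c : k, c ≠ 0 ∧ ∀ v, Ov C v a → v.val ((u : C.Q) - algebraMap k C.Q c) < 1 := by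
  refine and_congr_right fun _ => ⟨fun H a => ?_, fun H b v₀ h0 h1 => ?_⟩
  · obtain ⟨v, hv⟩ := exists_place hP a
    simp only [ov_iff (ex_eq a.1)] at hv ⊢
    exact H _ v hv (((ov_iff (ex_eq a.1)).2 hv).bad hH).2
  · obtain ⟨a, ha⟩ := exists_pt hH h0 h1
    simpa only [ov_iff ha] using H a

theorem finite_SS (hH : C.HA) : Finite (SS C) := (hH.bad.1.union hH.infs).to_subtype

theorem finite_PP (hH : C.HA) (hP : C.PL) : Finite (PP f m) := by
  choose v hv using exists_place hP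
  have := finite_SS hH
  exact Finite.of_injective (fun a => (⟨v a, Or.inl ((hv a).bad hH)⟩ : SS C)) fun a b e =>
    (hv a).unique (by rw [show v a = v b from congrArg Subtype.val e]; exact hv b)

theorem apxS (hQ : C.QA) (hH : C.HA) (a : SS C → C.Q) (ha : ∀ v : SS C, v.1.val (a v) ≠ 0) :
    ∃ u : C.Qˣ, ∀ v : SS C, v.1.val ((u : C.Q) - a v) < v.1.val (a v) := by
  classical
  obtain ⟨u, hu⟩ := hQ.apx (hH.bad.1.union hH.infs).toFinset
    (fun v => if h : C.Bad v ∨ 1 < v.val C.t then a ⟨v, h⟩ else 0) fun v hv => by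
      have h : C.Bad v ∨ 1 < v.val C.t := by simpa using hv
      rw [dif_pos h]; exact ha ⟨v, h⟩
  refine ⟨u, fun v => ?_⟩
  have := hu v.1 ((Set.Finite.mem_toFinset _).2 v.2)
  rwa [dif_pos v.2] at this

/-- Functions on the bad points as functions on the bad or infinite places. -/
theorem exists_ext (hH : C.HA) {M : Type} (γ : PP f m → M) (z : SS C → M) : ∃ g : SS C → M,
    (∀ v : SS C, 1 < v.1.val C.t → g v = z v) ∧ ∀ (v : SS C) a, Ov C v.1 a → g v = γ a := by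
  classical
  refine ⟨fun v => if h : C.Bad v.1 then γ (exists_ov hH h).choose else z v, fun v hv => ?_,
    fun v a ha => ?_⟩
  · exact dif_neg fun h => h.1.not_gt hv
  · exact (dif_pos (ha.bad hH)).trans (congrArg γ ((exists_ov hH (ha.bad hH)).choose_spec.unique ha))

theorem ss_ext (hH : C.HA) {M : Type} {g g' : SS C → M} (h1 : ∀ v : SS C, 1 < v.1.val C.t → g v = g' v)
    (h2 : ∀ (v : SS C) a, Ov C v.1 a → g v = g' v) : g = g' := funext fun v =>
  v.2.elim (fun h => (exists_ov hH h).elim fun a ha => h2 v a ha) (h1 v)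

/-- A normalized unit with prescribed values at the bad points. -/
theorem exists_gg (hQ : C.QA) (hH : C.HA) (hP : C.PL) (n : ℤ) (c : PP f m → k) (hc : ∀ a, c a ≠ 0) :
    ∃ b : C.Qˣ, C.GG n b ∧ ∀ v a, Ov C v a → v.val ((b : C.Q) - algebraMap k C.Q (c a)) < 1 := by
  obtain ⟨g, h1, h2⟩ := exists_ext hH (fun a => algebraMap k C.Q (c a))
    fun _ => ((C.su ^ n)⁻¹ : C.Qˣ)
  obtain ⟨b, hb⟩ := apxS hQ hH g fun v => v.2.elim
    (fun h => (exists_ov hH h).elim fun a ha => by rw [h2 v a ha, v.1.triv _ (hc a)]; simp)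
    fun h => by rw [h1 v h]; exact v.1.val_unit_ne _
  have h3 : ∀ v a, Ov C v a → v.val ((b : C.Q) - algebraMap k C.Q (c a)) < 1 := fun v a ha => by
    have := hb ⟨v, Or.inl (ha.bad hH)⟩
    rwa [h2 _ a ha, v.triv _ (hc a)] at this
  refine ⟨b, (gg_iff hH hP).2 ⟨fun v hv => ?_, fun a => ⟨c a, hc a, fun v => h3 v a⟩⟩, h3⟩
  have := mul_lt_mul_of_pos_right (hb ⟨v, Or.inr hv⟩) (zero_lt_iff.2 (v.val_unit_ne (C.su ^ n)))
  rwa [h1 ⟨v, Or.inr hv⟩ hv, ← map_mul, ← map_mul, sub_mul, Units.inv_mul, map_one,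
    ← Units.val_mul] at this

section Act

variable (σ : C.Aut)

theorem aut_t (v : Place k C.Q) : (σ.1 • v).val C.t = v.val C.t := by
  rw [← smul_val_apply σ.1 v, σ.2.1]

theorem aut_dl (v : Place k C.Q) : (σ.1 • v).val C.dl = v.val C.dl := by
  rw [← smul_val_apply σ.1 v, σ.2.2.1]

/-- The action on the bad or infinite places. -/
noncomputable def sS (v : SS C) : SS C := ⟨σ.1 • v.1, by simpa only [Cv.Bad, aut_t, aut_dl] using v.2⟩

theorem exists_fr (hH : C.HA) (hP : C.PL) {q : ℕ} (hσ : IsFrob q σ.1) : ∃ fr : PP f m → PP f m,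
    (∀ a i, (fr a).1 i = a.1 i ^ q) ∧ ∀ v a, Ov C v a → Ov C (σ.1 • v) (fr a) := by
  have key : ∀ v (a : PP f m), Ov C v a → C.At (σ.1 • v) fun i => ex a.1 i ^ q := fun v a h i hi => by
    rw [← hσ, ← σ.2.2.2 i hi, ← map_sub, smul_val_apply]
    exact (ov_iff (ex_eq a.1)).1 h i hi
  choose v hv using exists_place hP
  choose fr hfr using fun a => exists_pt hH (key _ a (hv a))
    (by rw [aut_dl]; exact ((hv a).bad hH).2)
  exact ⟨fr, fun a i => by rw [hfr, ← ex_eq], fun w a h => (ov_iff (hfr a)).2 (key w a h)⟩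

end Act

section Nr

variable {l : ℕ} [NeZero l] {ζ : k}

variable (C) in
/-- The values of `y` at the bad or infinite places are the roots of unity given by `g`. -/
def Nr (ζ : k) (y : C.Qˣ) (g : SS C → ZMod l) : Prop :=
  ∀ v : SS C, v.1.val ((y : C.Q) - algebraMap k C.Q (ζ ^ (g v).val)) < 1

variable {y y' : C.Qˣ} {g g' : SS C → ZMod l}

theorem Nr.mul (hζ : ζ ^ l = 1) (h : Nr C ζ y g) (h' : Nr C ζ y' g') : Nr C ζ (y * y') (g + g') :=
  fun v => by
    rw [Pi.add_apply, zeta_add hζ]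
    exact near_mul (h v) (h' v)

theorem Nr.inv (hζ : ζ ^ l = 1) (h : Nr C ζ y g) : Nr C ζ y⁻¹ (-g) := fun v => by
  rw [Pi.neg_apply, zeta_neg hζ]
  exact near_inv (zeta_ne hζ _) (h v)

theorem Nr.unique (hζ : IsPrimitiveRoot ζ l) (h : Nr C ζ y g) (h' : Nr C ζ y g') : g = g' :=
  funext fun v => zeta_inj hζ (v.1.const_eq (h v) (h' v))

omit [NeZero l] in
theorem nr_zero : Nr C ζ y (0 : SS C → ZMod l) ↔ ∀ v : SS C, v.1.val ((y : C.Q) - 1) < 1 := by
  simp [Nr]

theorem Nr.pow (hζ : ζ ^ l = 1) (h : Nr C ζ y g) (v : SS C) :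
    v.1.val (((y ^ l : C.Qˣ) : C.Q) - 1) < 1 := by
  simpa [zeta_pow hζ] using near_pow (h v) l

theorem gg_of_one (hH : C.HA) (hP : C.PL) (h : ∀ v : SS C, v.1.val ((y : C.Q) - 1) < 1) :
    C.GG 0 y :=
  (gg_iff hH hP).2 ⟨fun v hv => by simpa using h ⟨v, Or.inr hv⟩, fun a => ⟨1, one_ne_zero,
    fun v hv => by simpa using h ⟨v, Or.inl (hv.bad hH)⟩⟩⟩

theorem exists_nr (hQ : C.QA) (hH : C.HA) (hζ : ζ ^ l = 1) (g : SS C → ZMod l) :
    ∃ y, Nr C ζ y g := by
  obtain ⟨y, hy⟩ := apxS hQ hH (fun v => algebraMap k C.Q (ζ ^ (g v).val)) fun v => by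
    rw [v.1.triv _ (zeta_ne hζ _)]; simp
  exact ⟨y, fun v => by simpa only [v.1.triv _ (zeta_ne hζ _)] using hy v⟩

theorem nr_of_pow (hQ : C.QA) (hζ : IsPrimitiveRoot ζ l)
    (h : ∀ v : SS C, v.1.val (((y ^ l : C.Qˣ) : C.Q) - 1) < 1) : ∃ g : SS C → ZMod l, Nr C ζ y g := by
  choose g hg using fun v : SS C => near_root hζ (hQ.res v.1) (y := y) (by simpa using h v)
  exact ⟨g, hg⟩

omit [NeZero l] in
theorem Nr.frob {q : ℕ} {σ : C.Aut} (hσ : IsFrob q σ.1) (h : Nr C ζ y g) :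
    Nr C ζ (actU σ⁻¹ y ^ q) (g ∘ sS σ) := fun v => near_frob hσ (h (sS σ v))

omit [NeZero l] in
theorem root_eq_one (hQ : C.QA) (hl : (l : k) ≠ 0) {ε : C.Q} (h : ε ^ l = 1)
    (h1 : ∀ v : Place k C.Q, 1 < v.val C.t → v.val (ε - 1) < 1) : ε = 1 := by
  rw [← sub_eq_zero]
  refine hQ.zero _ fun v hv => ?_
  have h2 : v.val (∑ i ∈ range l, ε ^ i) = 1 := near_one hl (by
    rw [map_natCast, show (l : C.Q) = ∑ i ∈ range l, 1 by simp, ← Finset.sum_sub_distrib]
    exact v.val.map_sum_lt one_ne_zero fun i _ => by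
      simpa using near_pow (v := v) (y := ε) (c := 1) (by simpa using h1 v hv) i)
  have h3 := congrArg v.val (geom_sum_mul ε l)
  rwa [map_mul, h2, one_mul, h, sub_self, map_zero] at h3

end Nr

end Pool.Agent.MP_cce4c9_lc.H7
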