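import Pool.Agent.MP_cce4c9_lc.H87.Basic

/-!
Statements of the function field part: places, Riemann's theorem, norms, reciprocity, base
change and reduction, rigidity, divisibility, and the trace formula modulo `l`.
-/

set_option autoImplicit false

open WithZero Finsupp Module
open scoped IntermediateField

namespace Pool.Agent.MP_cce4c9_lc.H7

open Pool.Agent.MP_cce4c9_lc.H87

/-! ### Places and Riemann's theorem -/

/-- Proper valuation rings that contain the constants are places. -/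
def StmtDVR : Prop := ∀ (k K : Type) [Field k] [IsAlgClosed k] [Field K] [Algebra k K],
  IsFF k K → ∀ O : ValuationSubring K, (∀ c, algebraMap k K c ∈ O) → O ≠ ⊤ →
    ∃ v : Place k K, ∀ h, h ∈ O ↔ v.val h ≤ 1

/-- Riemann-Roch spaces: finiteness, one step, constants. -/
def StmtLL : Prop := ∀ (k K : Type) [Field k] [IsAlgClosed k] [Field K] [Algebra k K],
  IsFF k K → (∀ D : Dv k K, FiniteDimensional k (LL D)) ∧
    (∀ (D : Dv k K) (v : Place k K), finrank k (LL (D + single v 1)) ≤ finrank k (LL D) + 1) ∧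
    (∀ h ∈ LL (0 : Dv k K), h ∈ Set.range (algebraMap k K)) ∧ Infinite (Place k K)

/-- The number of zeros, and the degree of a principal divisor. -/
def StmtDEG : Prop := ∀ (k K : Type) [Field k] [IsAlgClosed k] [Field K] [Algebra k K],
  IsFF k K → (∀ s : K, s ∉ Set.range (algebraMap k K) →
      (dv k s ⊔ 0).degree = (finrank k⟮s⟯ K : ℤ)) ∧ ∀ h : K, (dv k h).degree = 0

/-- Riemann's inequality, and an explicit bound for the genus. -/
def StmtRI : Prop := ∀ (k K : Type) [Field k] [IsAlgClosed k] [Field K] [Algebra k K],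
  IsFF k K → (∃ γ : ℕ, ∀ D : Dv k K, D.degree + 1 - γ ≤ (finrank k (LL D) : ℤ)) ∧
    ∀ (g : ℕ), IsGenus k K g → ∀ s : K, s ∉ Set.range (algebraMap k K) →
      ∀ (C : Dv k K) (u : Fin (finrank k⟮s⟯ K) → K), LinearIndependent k⟮s⟯ u →
        (∀ i, u i ∈ LL C) → (g : ℤ) + finrank k⟮s⟯ K ≤ C.degree + 1

/-- The genus exists; jets at finitely many places are attained in large degree. -/
def StmtGEN : Prop := ∀ (k K : Type) [Field k] [IsAlgClosed k] [Field K] [Algebra k K],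
  IsFF k K → (∃ g, IsGenus k K g) ∧ ∀ g, IsGenus k K g → ∀ D E : Dv k K, 0 ≤ E →
    2 * (g : ℤ) ≤ D.degree - E.degree → ∀ a : K, (∀ v, E v ≠ 0 → v.val a ≤ exp (D v)) →
      ∃ y ∈ LL D, ∀ v, E v ≠ 0 → v.val (y - a) ≤ exp (D v - E v)

/-! ### Finite extensions, norms, reciprocity -/

/-- Places in a finite extension. -/
def StmtEXT : Prop := ∀ (k K L : Type) [Field k] [IsAlgClosed k] [Field K] [Algebra k K]
  [Field L] [Algebra k L] [Algebra K L] [IsScalarTower k K L] [FiniteDimensional K L],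
  IsFF k K → ∃ (dn : Place k L → Place k K) (e : Place k L → ℕ), (∀ y, Over y (dn y) (e y)) ∧
    ∀ x, ∃ S : Finset (Place k L), (∀ y, y ∈ S ↔ dn y = x) ∧ ∑ y ∈ S, e y = finrank K L

/-- The divisor and the values of a norm. -/
def StmtNORM : Prop := ∀ (k K L : Type) [Field k] [IsAlgClosed k] [Field K] [Algebra k K]
  [Field L] [Algebra k L] [Algebra K L] [IsScalarTower k K L] [FiniteDimensional K L],
  IsFF k K → ∀ (dn : Place k L → Place k K) (e : Place k L → ℕ), (∀ y, Over y (dn y) (e y)) →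
    ∀ f : L, dv k (Algebra.norm K f) = (dv k f).mapDomain dn ∧
      ∀ (x : Place k K) (S : Finset (Place k L)), (∀ y, y ∈ S ↔ dn y = x) →
        (∀ y ∈ S, y.val f ≤ 1) → x.val (Algebra.norm K f) ≤ 1 ∧
          x.ev (Algebra.norm K f) = ∏ y ∈ S, y.ev f ^ e y

open Classical in
/-- The norm to `k(s)` as an explicit rational function of `s`, and its value at `s = 0`. -/
def StmtNP : Prop := ∀ (k K : Type) [Field k] [IsAlgClosed k] [Field K] [Algebra k K],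
  IsFF k K → ∀ (E : IntermediateField k K) (s : K), s ∉ Set.range (algebraMap k K) →
    E = k⟮s⟯ → ∀ f : K, f ≠ 0 →
      (∃ c : k, c ≠ 0 ∧ (Algebra.norm E f : K) = algebraMap k K c *
        ∏ w ∈ (dv k f).support with w.val s ≤ 1, (s - algebraMap k K (w.ev s)) ^ w.ord f) ∧
      (Off f (dv k s ⊔ 0) → ∀ v : Place k K, v.val s < 1 →
        v.val (Algebra.norm E f : K) = 1 ∧ v.ev (Algebra.norm E f : K) = evD f (dv k s ⊔ 0))

/-- Weil reciprocity. -/
def StmtWR : Prop := ∀ (k K : Type) [Field k] [IsAlgClosed k] [Field K] [Algebra k K],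
  IsFF k K → ∀ f g : K, f ≠ 0 → g ≠ 0 → Off f (dv k g) → evD f (dv k g) = evD g (dv k f)

/-- Galois extensions: transitivity on fibres; a free action is unramified; Kummer extensions
by elements whose orders are divisible by `l` have a free action. -/
def StmtGAL : Prop := ∀ (k K L : Type) [Field k] [IsAlgClosed k] [Field K] [Algebra k K]
  [Field L] [Algebra k L] [Algebra K L] [IsScalarTower k K L] [FiniteDimensional K L]
  [IsGalois K L], IsFF k K →
    (∀ (y y' : Place k L) (x : Place k K) (e e' : ℕ), Over y x e → Over y' x e' →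
      ∃ τ : L ≃ₐ[K] L, SA.ofAlg (k := k) τ • y = y') ∧
    ((∀ (τ : L ≃ₐ[K] L) (y : Place k L), SA.ofAlg (k := k) τ • y = y → τ = 1) →
      ∀ (y : Place k L) (x : Place k K) (e : ℕ), Over y x e → e = 1) ∧
    ∀ (l : ℕ), l.Prime → ∀ T : Set L, IntermediateField.adjoin K T = ⊤ →
      (∀ r ∈ T, ∃ f : K, f ≠ 0 ∧ (∀ v : Place k K, (l : ℤ) ∣ v.ord f) ∧
        r ^ l = algebraMap K L f) →
      ∀ (τ : L ≃ₐ[K] L) (y : Place k L), SA.ofAlg (k := k) τ • y = y → τ = 1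

/-- Norms from a finite extension of a function field are surjective (Tsen). -/
def StmtTSEN : Prop := ∀ (k K L : Type) [Field k] [IsAlgClosed k] [Field K] [Algebra k K]
  [Field L] [Algebra K L] [FiniteDimensional K L], IsFF k K →
    ∀ b : K, ∃ z : L, Algebra.norm K z = b

/-! ### Base change and reduction -/

/-- Extension of a partial homomorphism, given by its graph, to a place with values in `k`. -/
def StmtCHEV : Prop := ∀ (k Ω : Type) [Field k] [IsAlgClosed k] [Field Ω] [Algebra k Ω]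
  (Γ : Subring (Ω × k)), (∀ c : k, (algebraMap k Ω c, c) ∈ Γ) →
    (∀ c : k, ((0 : Ω), c) ∈ Γ → c = 0) → ∃ P : KP k Ω, ∀ z ∈ Γ, P.Rd z.1 z.2

/-- The base change exists, and automorphisms of `Ω` act on it. -/
def StmtBCD : Prop := ∀ (k K Ω : Type) [Field k] [IsAlgClosed k] [Field K] [Algebra k K]
  [Field Ω] [Algebra k Ω], Nonempty (BCD k K Ω) ∧ ∀ B : BCD k K Ω,
    ∃ act : (Ω ≃ₐ[k] Ω) →* SA Ω B.F,
      (∀ τ (h : K), (act τ).1 (algebraMap K B.F h) = algebraMap K B.F h) ∧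
      ∀ τ (a : Ω), (act τ).1 (algebraMap Ω B.F a) = algebraMap Ω B.F (τ a)

/-- The Gauss valuation exists. -/
def StmtGAUSS : Prop := ∀ (k K Ω : Type) [Field k] [Field K] [Algebra k K]
  [Field Ω] [Algebra k Ω] (B : BCD k K Ω) (P : KP k Ω), Nonempty (Gauss B P)

/-- The base change is a function field, and reduction commutes with the norm to `k(s)`. -/
def StmtNRED : Prop := ∀ (k K Ω : Type) [Field k] [IsAlgClosed k] [Field K] [Algebra k K]
  [Field Ω] [Algebra k Ω] (B : BCD k K Ω), IsFF k K → IsFF Ω B.F ∧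
    ∀ s : K, s ∉ Set.range (algebraMap k K) →
      algebraMap K B.F s ∉ Set.range (algebraMap Ω B.F) ∧
      ∀ (P : KP k Ω) (R : Gauss B P) (Φ : R.G),
        ∃ h : (Algebra.norm Ω⟮algebraMap K B.F s⟯ (Φ : B.F) : B.F) ∈ R.G,
          R.red ⟨_, h⟩ = (Algebra.norm k⟮s⟯ (R.red Φ) : K)

/-- Reduction of divisors. -/
def StmtRED : Prop := ∀ (k K Ω : Type) [Field k] [IsAlgClosed k] [Field K] [Algebra k K]
  [Field Ω] [IsAlgClosed Ω] [Algebra k Ω] (B : BCD k K Ω) (P : KP k Ω), IsFF k K →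
    Nonempty (Red B P)

/-- The full base change package exists. -/
def StmtBCK : Prop := ∀ (k K Ω : Type) [Field k] [IsAlgClosed k] [Field K] [Algebra k K]
  [Field Ω] [IsAlgClosed Ω] [Algebra k Ω], IsFF k K → Nonempty (BCK k K Ω)

open Classical in
/-- Residue discs: a uniformizer is a coordinate, and the absolute value of a function. -/
def StmtDISC : Prop := ∀ (k K Ω : Type) [Field k] [IsAlgClosed k] [Field K] [Algebra k K]
  [Field Ω] [IsAlgClosed Ω] [Algebra k Ω] (B : BCD k K Ω) (P : KP k Ω) (R : Red B P),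
  IsFF k K → IsFF Ω B.F → ∀ (ξ : Place Ω B.F) (s : K), (R.rp ξ).ord s = 1 →
    (∀ w, R.rp w = R.rp ξ → w.ord (algebraMap K B.F s -
      algebraMap Ω B.F (ξ.ev (algebraMap K B.F s))) = if w = ξ then 1 else 0) ∧
    ∀ Φ : R.G, R.red Φ ≠ 0 → ξ.val (Φ : B.F) = 1 →
      P.O.valuation (ξ.ev (Φ : B.F)) =
        ∏ w ∈ (dv Ω (Φ : B.F)).support with R.rp w = R.rp ξ,
          P.O.valuation (ξ.ev (algebraMap K B.F s) - w.ev (algebraMap K B.F s)) ^ w.ord (Φ : B.F)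

/-- An `l`-torsion class with trivial reduction is trivial. -/
def StmtRIGD : Prop := ∀ (k K Ω : Type) [Field k] [IsAlgClosed k] [Field K] [Algebra k K]
  [Field Ω] [IsAlgClosed Ω] [Algebra k Ω] (B : BCK k K Ω) (P : KP k Ω) (R : Red B.toBCD P)
  (l : ℕ), IsFF k K → (l : k) ≠ 0 → ∀ (Φ : B.F) (D : Dv Ω B.F) (h : K), Φ ≠ 0 →
    dv Ω Φ = (l : ℤ) • D → h ≠ 0 → D.mapDomain R.rp = dv k h →
      ∃ Ψ : B.F, Ψ ≠ 0 ∧ dv Ω Ψ = D

/-- Rigidity of `l`-torsion classes under base change. -/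
def StmtRIG : Prop := ∀ (k K Ω : Type) [Field k] [IsAlgClosed k] [Field K] [Algebra k K]
  [Field Ω] [IsAlgClosed Ω] [Algebra k Ω] (B : BCK k K Ω) (l : ℕ), IsFF k K → (l : k) ≠ 0 →
    ∀ Φ : B.F, Φ ≠ 0 → (∀ w : Place Ω B.F, (l : ℤ) ∣ w.ord Φ) →
      ∃ (f : K) (Ψ : B.F), f ≠ 0 ∧ Ψ ≠ 0 ∧ (∀ z : Place k K, (l : ℤ) ∣ z.ord f) ∧
        Φ = algebraMap K B.F f * Ψ ^ l

/-- Independent generic points specialize to arbitrary points; scaling automorphisms. -/
def StmtSPEC : Prop := ∀ (k K Ω : Type) [Field k] [IsAlgClosed k] [Field K] [Algebra k K]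
  [Field Ω] [IsAlgClosed Ω] [Algebra k Ω], IsFF k K →
    (∀ (t : K) (n : ℕ) (η : Fin n → K →ₐ[k] Ω) (z : Fin n → Place k K),
      AlgebraicIndependent k (fun j => η j t) →
        ∃ P : KP k Ω, ∀ j h, (z j).val h ≤ 1 → P.Rd (η j h) ((z j).ev h)) ∧
    ∀ (N : IntermediateField k Ω) (c : Ω) (a : k), Transcendental N c → a ≠ 0 →
      ∃ τ : Ω ≃ₐ[k] Ω, (∀ x, IsAlgebraic N x → τ x = x) ∧ τ c = algebraMap k Ω a * c

/-- The group of divisor classes of degree zero is `l`-divisible. -/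
def StmtDIV : Prop := ∀ (k K : Type) [Field k] [IsAlgClosed k] [Field K] [Algebra k K] (l : ℕ),
  IsFF k K → (l : k) ≠ 0 → ∀ D : Dv k K, D.degree = 0 →
    ∃ (E : Dv k K) (h : K), h ≠ 0 ∧ dv k h = D + (l : ℤ) • E

/-! ### The pairing and the trace formula -/

section Defs

variable {k K : Type} [Field k] [Field K] [Algebra k K] {l : ℕ}

/-- `f` represents the class `a`, and its divisor is `l` times `D`. -/
def Rep (f : Kˣ) (D : Dv k K) (a : VV k K l) : Prop :=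
  (a : Hl Kˣ l) = Hl.mk l f ∧ dv k (f : K) = (l : ℤ) • D

/-- `e` is the logarithm of the Weil pairing with respect to `ζ`. -/
def IsWP (ζ : k) (e : VV k K l →ₗ[ZMod l] VV k K l →ₗ[ZMod l] ZMod l) : Prop :=
  (∀ a b, e a b = -e b a) ∧ ∀ (f g : Kˣ) (D E : Dv k K) (a b : VV k K l), Rep f D a → Rep g E b →
    Off (f : K) E → Off (g : K) D → evD (f : K) E = ζ ^ (e a b).val * evD (g : K) D

/-- A function on a Galois cover that is invariant up to `l`-th powers, with commutator form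
`ω` and with orders given modulo `l` by the divisor `B` of the base. -/
def Dat {L : Type} [Field L] [Algebra k L] [Algebra K L] (ζ : k) (dn : Place k L → Place k K)
    (H : L) (w : (L ≃ₐ[K] L) → L) (ω : (L ≃ₐ[K] L) → (L ≃ₐ[K] L) → ZMod l)
    (B : Place k K → ZMod l) : Prop :=
  H ≠ 0 ∧ (∀ γ : L ≃ₐ[K] L, γ H = H * w γ ^ l) ∧
    (∀ γ δ : L ≃ₐ[K] L, w γ * γ (w δ) = algebraMap k L (ζ ^ (ω γ δ).val) * (w δ * δ (w γ))) ∧
    ∀ y : Place k L, ((y.ord H : ℤ) : ZMod l) = B (dn y)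

variable {Ω : Type} [Field Ω] [Algebra k Ω] [Algebra K Ω] [IsScalarTower k K Ω]

/-- The generic point. -/
def eta (k K Ω : Type) [Field k] [Field K] [Algebra k K] [Field Ω] [Algebra k Ω] [Algebra K Ω]
    [IsScalarTower k K Ω] : K →ₐ[k] Ω := IsScalarTower.toAlgHom k K Ω

/-- Division of the class of `η - x₀` by `l`, and its Galois cocycle. -/
structure Coc0 (B : BCK k K Ω) (l : ℕ) (x₀ : Place k K) where
  /-- the function -/
  Φ : B.F
  /-- the `l`-th part of the divisor -/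
  E : Dv Ω B.F
  /-- the cocycle -/
  c : (Ω ≃ₐ[K] Ω) → VV k K l
  ne : Φ ≠ 0
  div : dv Ω Φ = single (B.pl (eta k K Ω)) 1 - single (B.io x₀) 1 + (l : ℤ) • E
  coc : ∀ (τ : Ω ≃ₐ[K] Ω) (f : Kˣ) (D : Dv k K), Rep f D (c τ) → ∃ ψ : B.F,
    (B.act (τ.restrictScalars k)).1 Φ = Φ * algebraMap K B.F f * ψ ^ l
  fix : ∀ τ : Ω ≃ₐ[K] Ω, c τ = 0 → (B.act (τ.restrictScalars k)).1 Φ = Φ
  finr : (Set.range c).Finite

/-- The cocycle computes the Kummer pairing. -/
def Kum (ζ : k) (e : VV k K l →ₗ[ZMod l] VV k K l →ₗ[ZMod l] ZMod l)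
    (c : (Ω ≃ₐ[K] Ω) → VV k K l) : Prop :=
  ∀ (τ : Ω ≃ₐ[K] Ω) (f : Kˣ) (D : Dv k K) (b : VV k K l) (r : Ω), Rep f D b →
    r ^ l = algebraMap K Ω f → τ r = algebraMap k Ω (ζ ^ (e (c τ) b).val) * r

/-- The cocycle together with its relation to the pairing `e`. -/
structure Coc (B : BCK k K Ω) (ζ : k) (e : VV k K l →ₗ[ZMod l] VV k K l →ₗ[ZMod l] ZMod l)
    (x₀ : Place k K) extends Coc0 B l x₀ where
  kum : Kum ζ e c
  surj : Function.Surjective c
  fin : Module.Finite (ZMod l) (VV k K l)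
  nd : ∀ a, (∀ b, e a b = 0) → a = 0

/-- The maximal unramified abelian extension of exponent `l`, inside `Ω`. -/
structure IsCov (k : Type) [Field k] [Algebra k K] [Algebra k Ω] [IsScalarTower k K Ω] (l p : ℕ)
    (L : IntermediateField K Ω) : Prop where
  fd : FiniteDimensional K L
  gal : IsGalois K L
  mem : ∀ (f : K) (r : Ω), f ≠ 0 → (∀ v : Place k K, (l : ℤ) ∣ v.ord f) →
    r ^ l = algebraMap K Ω f → r ∈ L
  fix : ∀ τ : Ω ≃ₐ[K] Ω, (∀ (f : K) (r : Ω), f ≠ 0 → (∀ v : Place k K, (l : ℤ) ∣ v.ord f) →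
    r ^ l = algebraMap K Ω f → τ r = r) → ∀ x ∈ L, τ x = x
  comm : ∀ γ δ : L ≃ₐ[K] L, γ * δ = δ * γ
  pow : ∀ γ : L ≃ₐ[K] L, γ ^ l = 1
  free : ∀ (γ : L ≃ₐ[K] L) (y : Place k L), SA.ofAlg (k := k) γ • y = y → γ = 1
  lift : ∀ γ : L ≃ₐ[K] L, ∃ τ : Ω ≃ₐ[K] Ω, ∀ x : L, τ x = γ x
  ins : ∀ x : Ω, (∀ τ : Ω ≃ₐ[K] Ω, (∀ y ∈ L, τ y = y) → τ x = x) →
    ∃ j : ℕ, ∀ i, j ≤ i → x ^ p ^ i ∈ L

/-- `φ` is the geometric Frobenius that belongs to `σ`. -/
def IsGF (q : ℕ) (σ : SA k K) (φ : K →ₐ[k] K) : Prop := ∀ h, φ h = (σ⁻¹).1 h ^ q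

end Defs

/-- Moving lemma, and existence of the Weil pairing. -/
def StmtWP : Prop := ∀ (k K : Type) [Field k] [IsAlgClosed k] [Field K] [Algebra k K] (l : ℕ)
  [Fact l.Prime], IsFF k K →
    (∀ (a : VV k K l) (S : Finset (Place k K)),
      ∃ (f : Kˣ) (D : Dv k K), Rep f D a ∧ ∀ v ∈ S, v.val (f : K) = 1) ∧
    ∀ ζ : k, IsPrimitiveRoot ζ l → ∃ e : VV k K l →ₗ[ZMod l] VV k K l →ₗ[ZMod l] ZMod l, IsWP ζ e

/-- Models for the decomposable commutator forms. -/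
def StmtMAB : Prop := ∀ (k K L : Type) [Field k] [IsAlgClosed k] [Field K] [Algebra k K]
  [Field L] [Algebra k L] [Algebra K L] [IsScalarTower k K L] [FiniteDimensional K L]
  [IsGalois K L] (l : ℕ) [Fact l.Prime] (ζ : k)
  (e : VV k K l →ₗ[ZMod l] VV k K l →ₗ[ZMod l] ZMod l) (dn : Place k L → Place k K),
  IsFF k K → IsPrimitiveRoot ζ l → IsWP ζ e → (∀ y, Over y (dn y) 1) →
    ∀ (f g : Kˣ) (D E : Dv k K) (a b : VV k K l) (α β : L) (χa χb : (L ≃ₐ[K] L) → ZMod l),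
      Rep f D a → Rep g E b → α ^ l = algebraMap K L f → β ^ l = algebraMap K L g →
      (∀ γ : L ≃ₐ[K] L, γ α = algebraMap k L (ζ ^ (χa γ).val) * α) →
      (∀ γ : L ≃ₐ[K] L, γ β = algebraMap k L (ζ ^ (χb γ).val) * β) →
      ∃ (H : L) (w : (L ≃ₐ[K] L) → L) (B : Dv k K),
        Dat ζ dn H w (fun γ δ => χa γ * χb δ - χa δ * χb γ) (fun x => (B x : ZMod l)) ∧
          (B.degree : ZMod l) = -e a b

/-- A trivial commutator form forces degree zero modulo `l`. -/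
def StmtTH : Prop := ∀ (k K L : Type) [Field k] [IsAlgClosed k] [Field K] [Algebra k K]
  [Field L] [Algebra k L] [Algebra K L] [IsScalarTower k K L] [FiniteDimensional K L]
  [IsGalois K L] (l : ℕ) [Fact l.Prime] (ζ : k) (dn : Place k L → Place k K),
  IsFF k K → IsPrimitiveRoot ζ l → (∀ y, Over y (dn y) 1) → Function.Surjective dn →
    (∀ γ δ : L ≃ₐ[K] L, γ * δ = δ * γ) → (∀ γ : L ≃ₐ[K] L, γ ^ l = 1) →
    ∀ (H : L) (w : (L ≃ₐ[K] L) → L) (B : Dv k K),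
      Dat (l := l) ζ dn H w (fun _ _ => 0) (fun x => (B x : ZMod l)) → (B.degree : ZMod l) = 0

/-- The cocycle exists. -/
def StmtCOC : Prop := ∀ (k K Ω : Type) [Field k] [IsAlgClosed k] [Field K] [Algebra k K]
  [Field Ω] [IsAlgClosed Ω] [Algebra k Ω] [Algebra K Ω] [IsScalarTower k K Ω]
  [Algebra.IsAlgebraic K Ω] (B : BCK k K Ω) (l : ℕ) [Fact l.Prime] (x₀ : Place k K),
  IsFF k K → (l : k) ≠ 0 → Nonempty (Coc0 B l x₀)

/-- The cocycle computes the Kummer pairing. -/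
def StmtKUM : Prop := ∀ (k K Ω : Type) [Field k] [IsAlgClosed k] [Field K] [Algebra k K]
  [Field Ω] [IsAlgClosed Ω] [Algebra k Ω] [Algebra K Ω] [IsScalarTower k K Ω]
  (B : BCK k K Ω) (l : ℕ) [Fact l.Prime] (ζ : k)
  (e : VV k K l →ₗ[ZMod l] VV k K l →ₗ[ZMod l] ZMod l) (x₀ : Place k K) (C : Coc0 B l x₀),
  IsFF k K → IsPrimitiveRoot ζ l → IsWP ζ e → Kum ζ e C.c

/-- Finiteness of the torsion and perfectness of the pairing. -/
def StmtPERF : Prop := ∀ (k K Ω : Type) [Field k] [IsAlgClosed k] [Field K] [Algebra k K]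
  [Field Ω] [IsAlgClosed Ω] [Algebra k Ω] [Algebra K Ω] [IsScalarTower k K Ω]
  [Algebra.IsAlgebraic K Ω] (l : ℕ) [Fact l.Prime] (ζ : k)
  (e : VV k K l →ₗ[ZMod l] VV k K l →ₗ[ZMod l] ZMod l) (c : (Ω ≃ₐ[K] Ω) → VV k K l),
  IsFF k K → IsPrimitiveRoot ζ l → (∀ a b, e a b = -e b a) → Kum ζ e c → (Set.range c).Finite →
    Function.Surjective c ∧ Module.Finite (ZMod l) (VV k K l) ∧ ∀ a, (∀ b, e a b = 0) → a = 0

/-- The function of the cocycle can be made a unit at two given rational points. -/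
def StmtADJ : Prop := ∀ (k K Ω : Type) [Field k] [IsAlgClosed k] [Field K] [Algebra k K]
  [Field Ω] [IsAlgClosed Ω] [Algebra k Ω] [Algebra K Ω] [IsScalarTower k K Ω]
  (B : BCK k K Ω) (l : ℕ) [Fact l.Prime] (ζ : k)
  (e : VV k K l →ₗ[ZMod l] VV k K l →ₗ[ZMod l] ZMod l)
  (x₀ x₁ : Place k K) (φ : K →ₐ[k] K), IsFF k K → x₀ ≠ x₁ → φ ≠ AlgHom.id k K →
    Coc B ζ e x₀ → ∃ C : Coc B ζ e x₀,
      (B.pl ((eta k K Ω).comp φ)).val C.Φ = 1 ∧ (B.io x₁).val C.Φ = 1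

/-- The Kummer cover exists. -/
def StmtCOV : Prop := ∀ (k K Ω : Type) [Field k] [IsAlgClosed k] [Field K] [Algebra k K]
  [Field Ω] [IsAlgClosed Ω] [Algebra k Ω] [Algebra K Ω] [IsScalarTower k K Ω]
  [Algebra.IsAlgebraic K Ω] (l p : ℕ) [Fact l.Prime] [Fact p.Prime] [CharP k p],
  IsFF k K → l ≠ p → Module.Finite (ZMod l) (VV k K l) →
    ∃ L : IntermediateField K Ω, IsCov k l p L

/-- The function attached to an endomorphism `φ`: invariance up to `l`-th powers and the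
commutator form. -/
def StmtDAT : Prop := ∀ (k K Ω : Type) [Field k] [IsAlgClosed k] [Field K] [Algebra k K]
  [Field Ω] [IsAlgClosed Ω] [Algebra k Ω] [Algebra K Ω] [IsScalarTower k K Ω]
  (B : BCK k K Ω) (l p : ℕ) [Fact l.Prime] [Fact p.Prime] [CharP k p] (ζ : k)
  (e : VV k K l →ₗ[ZMod l] VV k K l →ₗ[ZMod l] ZMod l) (x₀ x₁ : Place k K) (φ : K →ₐ[k] K)
  (A : VV k K l → VV k K l) (C : Coc B ζ e x₀) (L : IntermediateField K Ω),
  IsFF k K → l ≠ p → IsPrimitiveRoot ζ l → IsCov k l p L →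
    (∀ (f : Kˣ) (D : Dv k K) (a : VV k K l), Rep f D a →
      ∃ D', Rep (Units.map (φ : K →* K) f) D' (A a)) →
    (B.pl ((eta k K Ω).comp φ)).val C.Φ = 1 → (B.io x₁).val C.Φ = 1 →
    ∃ (j : ℕ) (H : L) (w : (L ≃ₐ[K] L) → L) (c' : (L ≃ₐ[K] L) → VV k K l),
      ((p ^ j : ℕ) : ZMod l) = 1 ∧
      (H : Ω) = ((B.pl ((eta k K Ω).comp φ)).ev C.Φ / (B.io x₁).ev C.Φ) ^ p ^ j ∧
      (∀ (τ : Ω ≃ₐ[K] Ω) (γ : L ≃ₐ[K] L), (∀ x : L, τ x = γ x) → c' γ = C.c τ) ∧
      (∀ γ : L ≃ₐ[K] L, γ H = H * w γ ^ l) ∧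
      ∀ γ δ : L ≃ₐ[K] L, w γ * γ (w δ) = algebraMap k L
        (ζ ^ (e (c' γ) (A (c' δ)) - e (c' δ) (A (c' γ))).val) * (w δ * δ (w γ))

open Classical in
/-- The orders of the function attached to the Frobenius, modulo `l`. -/
def StmtORD : Prop := ∀ (k K Ω : Type) [Field k] [IsAlgClosed k] [Field K] [Algebra k K]
  [Field Ω] [IsAlgClosed Ω] [Algebra k Ω] [Algebra K Ω] [IsScalarTower k K Ω]
  (B : BCK k K Ω) (l p q : ℕ) [Fact l.Prime] [Fact p.Prime] [CharP k p] (ζ : k)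
  (e : VV k K l →ₗ[ZMod l] VV k K l →ₗ[ZMod l] ZMod l) (x₀ x₁ : Place k K) (σ : SA k K)
  (φ : K →ₐ[k] K) (C : Coc B ζ e x₀) (L : IntermediateField K Ω) (dn : Place k L → Place k K),
  IsFF k K → l ≠ p → IsPrimitiveRoot ζ l → 1 < q → x₀ ≠ x₁ → IsGF q σ φ → IsCov k l p L →
    (∀ y, Over y (dn y) 1) →
    (B.pl ((eta k K Ω).comp φ)).val C.Φ = 1 → (B.io x₁).val C.Φ = 1 →
    ∀ (j : ℕ) (H : L), ((p ^ j : ℕ) : ZMod l) = 1 →
      (H : Ω) = ((B.pl ((eta k K Ω).comp φ)).ev C.Φ / (B.io x₁).ev C.Φ) ^ p ^ j →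
      ∀ y : Place k L, ((y.ord H : ℤ) : ZMod l) = (if σ • dn y = dn y then 1 else 0) -
        (if σ • dn y = x₀ then (q : ZMod l) else 0) - (if dn y = x₁ then 1 else 0)

/-- The trace formula modulo `l`. -/
def StmtT0 : Prop := ∀ (k K : Type) [Field k] [IsAlgClosed k] [Field K] [Algebra k K]
  (l p : ℕ) [Fact l.Prime] [Fact p.Prime] [CharP k p], IsFF k K → l ≠ p →
    Module.Finite (ZMod l) (VV k K l) ∧ ∀ (a : ℕ) (σ : SA k K), 0 < a → IsFrob (p ^ a) σ →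
      {x : Place k K | σ • x = x}.Finite ∧
      (({x : Place k K | σ • x = x}.ncard : ℕ) : ZMod l) = 1 + ((p ^ a : ℕ) : ZMod l) -
        ((p ^ a : ℕ) : ZMod l) * LinearMap.trace (ZMod l) (VV k K l) (actV l σ⁻¹)

end Pool.Agent.MP_cce4c9_lc.H7
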